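import Mathlib

set_option autoImplicit false

namespace Pool.Agent.Lib.MP_ef3a35_an

/-! ### The Toeplitz sequence over three letters -/

def N (j : ℕ) : ℕ := 2 ^ (j + 8)

theorem N_ge (j : ℕ) : 256 ≤ N j := by
  unfold N
  calc 256 = 2 ^ 8 := by norm_num
    _ ≤ 2 ^ (j + 8) := Nat.pow_le_pow_right (by norm_num) (by omega)

def k : ℕ → ℕ
  | 0 => 1
  | j + 1 => N j * k j

theorem k_pos (j : ℕ) : 0 < k j := by
  induction j with
  | zero => exact one_pos
  | succ j ih => exact Nat.mul_pos (by have := N_ge j; omega) ih

theorem k_succ (j : ℕ) : k (j + 1) = N j * k j := rfl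

theorem k_succ_ge (j : ℕ) : 256 * k j ≤ k (j + 1) := Nat.mul_le_mul_right _ (N_ge j)

theorem lt_k (j : ℕ) : j < k j := by
  induction j with
  | zero => exact one_pos
  | succ j ih => have := k_succ_ge j; omega

def pi (s : Fin 3) (u : ℕ) : Fin 3 :=
  if u = 0 ∨ u = 128 then 2 else if (s = 2 ∧ u = 1) ∨ (s = 1 ∧ u = 2) then 1 else 0

def y (j q : ℕ) : Fin 3 :=
  if h : q = 0 then 2 else pi (y (j + 1) (q / N j)) (q % N j)
termination_by q
decreasing_by exact Nat.div_lt_self (Nat.pos_of_ne_zero h) (by have := N_ge j; omega)

theorem y_zero (j : ℕ) : y j 0 = 2 := by rw [y]; simp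

theorem y_block (j q u : ℕ) (hu : u < N j) : y j (q * N j + u) = pi (y (j + 1) q) u := by
  by_cases h : q * N j + u = 0
  · have hu0 : u = 0 := by omega
    rw [h, y_zero, hu0]
    simp [pi]
  · have hN := N_ge j
    rw [y, dif_neg h]
    congr 1
    · congr 1
      rw [mul_comm, Nat.mul_add_div (by omega), Nat.div_eq_of_lt hu, add_zero]
    · rw [mul_comm, Nat.mul_add_mod, Nat.mod_eq_of_lt hu]

def val : ℕ → Fin 3 → ℕ → Fin 3
  | 0, s, _ => s
  | j + 1, s, m => val j (pi s (m / k j)) (m % k j)

theorem y_val (j : ℕ) : ∀ p m, m < k j → y 0 (p * k j + m) = val j (y j p) m := by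
  induction j with
  | zero =>
    intro p m hm
    have : m = 0 := by
      have : k 0 = 1 := rfl
      omega
    subst this
    simp [val, k]
  | succ j ih =>
    intro p m hm
    have hk := k_pos j
    have h1 : p * k (j + 1) + m = (p * N j + m / k j) * k j + m % k j := by
      rw [k_succ, add_mul, mul_assoc, add_assoc, Nat.div_add_mod']
    rw [h1, ih _ _ (Nat.mod_lt _ hk), y_block j p _ (by
      rw [Nat.div_lt_iff_lt_mul hk]; exact hm)]
    rfl

def b : ℕ → ℕ
  | 0 => 0
  | j + 1 => 2 * k j + b j

def a : ℕ → ℕ
  | 0 => 0
  | j + 1 => k j + b j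

theorem b_lt (j : ℕ) : b j < k j := by
  induction j with
  | zero => exact one_pos
  | succ j ih =>
    have := k_succ_ge j
    show 2 * k j + b j < k (j + 1)
    omega

theorem a_lt (j : ℕ) : a j < k j := by
  cases j with
  | zero => exact one_pos
  | succ j =>
    have := k_succ_ge j
    have := b_lt j
    show k j + b j < k (j + 1)
    omega

theorem a_succ_le (j : ℕ) : a (j + 1) ≤ 2 * k j := by
  have := b_lt j
  show k j + b j ≤ 2 * k j
  omega

theorem k_le_a (j : ℕ) : k j ≤ a (j + 1) := by
  show k j ≤ k j + b j
  omega

theorem a_mono : Monotone a := by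
  apply monotone_nat_of_le_succ
  intro j
  have := a_lt j
  have := k_le_a j
  omega

theorem val_succ (j : ℕ) (s : Fin 3) (u m : ℕ) (hm : m < k j) :
    val (j + 1) s (u * k j + m) = val j (pi s u) m := by
  show val j (pi s ((u * k j + m) / k j)) ((u * k j + m) % k j) = _
  rw [mul_comm, Nat.mul_add_div (k_pos j), Nat.div_eq_of_lt hm, add_zero, Nat.mul_add_mod,
    Nat.mod_eq_of_lt hm]

theorem val_BC (j : ℕ) : (∀ m < b j, val j 1 m = val j 0 m) ∧ val j 1 (b j) = 1 ∧
    val j 0 (b j) = 0 := by
  induction j with
  | zero => exact ⟨fun m hm => absurd hm (Nat.not_lt_zero _), rfl, rfl⟩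
  | succ j ih =>
    obtain ⟨h1, h2, h3⟩ := ih
    have hb := b_lt j
    refine ⟨?_, ?_, ?_⟩
    · intro m hm
      have hm' : m < 2 * k j + b j := hm
      have hk := k_pos j
      rcases lt_or_ge m (k j) with hc | hc
      · have e : m = 0 * k j + m := by omega
        rw [e, val_succ _ _ _ _ hc, val_succ _ _ _ _ hc]
        rfl
      · rcases lt_or_ge m (2 * k j) with hc2 | hc2
        · have e : m = 1 * k j + (m - k j) := by omega
          rw [e, val_succ _ _ _ _ (by omega), val_succ _ _ _ _ (by omega)]
          rfl
        · have e : m = 2 * k j + (m - 2 * k j) := by omega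
          rw [e, val_succ _ _ _ _ (by omega), val_succ _ _ _ _ (by omega)]
          exact h1 _ (by omega)
    · show val (j + 1) 1 (2 * k j + b j) = 1
      rw [val_succ _ _ _ _ hb]
      exact h2
    · show val (j + 1) 0 (2 * k j + b j) = 0
      rw [val_succ _ _ _ _ hb]
      exact h3

theorem val_A (j : ℕ) (s : Fin 3) (hs : s ≠ 2) : (∀ m < a j, val j 2 m = val j s m) ∧
    val j s (a j) < val j 2 (a j) := by
  cases j with
  | zero =>
    refine ⟨fun m hm => absurd hm (Nat.not_lt_zero _), ?_⟩
    show s < 2
    revert s; decide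
  | succ j =>
    obtain ⟨h1, h2, h3⟩ := val_BC j
    have hb := b_lt j
    have hs1 : pi s 1 = 0 := by revert s; decide
    have hs2 : pi 2 1 = 1 := rfl
    refine ⟨?_, ?_⟩
    · intro m hm
      have hm' : m < k j + b j := hm
      have hk := k_pos j
      rcases lt_or_ge m (k j) with hc | hc
      · have e : m = 0 * k j + m := by omega
        rw [e, val_succ _ _ _ _ hc, val_succ _ _ _ _ hc]
        rfl
      · have e : m = 1 * k j + (m - k j) := by omega
        rw [e, val_succ _ _ _ _ (by omega), val_succ _ _ _ _ (by omega), hs1, hs2]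
        exact h1 _ (by omega)
    · have e : a (j + 1) = 1 * k j + b j := by
        show k j + b j = _
        ring
      rw [e, val_succ _ _ _ _ hb, val_succ _ _ _ _ hb, hs1, hs2, h2, h3]
      decide

/-- the length of the agreement of `x` and `σ^(q k_j) x` -/
def rho (j q : ℕ) : ℕ :=
  if h : q = 0 then 0 else
    if q % N j = 0 then rho (j + 1) (q / N j) else
      if q % N j = 128 then a (j + 1) else a j
termination_by q
decreasing_by exact Nat.div_lt_self (Nat.pos_of_ne_zero h) (by have := N_ge j; omega)

theorem rho_spec (q : ℕ) : ∀ j, 0 < q →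
    (∀ t < rho j q, y 0 (q * k j + t) = y 0 t) ∧
      y 0 (q * k j + rho j q) < y 0 (rho j q) := by
  induction q using Nat.strong_induction_on with
  | _ q ih =>
    intro j hq
    have hN := N_ge j
    have hx0 : ∀ m < k j, y 0 m = val j 2 m := by
      intro m hm
      have := y_val j 0 m hm
      rw [zero_mul, zero_add, y_zero] at this
      exact this
    by_cases h0 : q % N j = 0
    · have hr : rho j q = rho (j + 1) (q / N j) := by
        rw [rho, dif_neg hq.ne', if_pos h0]
      have hq' : 0 < q / N j := by
        apply Nat.pos_of_ne_zero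
        intro h
        have := Nat.div_add_mod q (N j)
        rw [h, h0] at this
        omega
      have h1 := ih (q / N j) (Nat.div_lt_self hq (by omega)) (j + 1) hq'
      have e : q / N j * k (j + 1) = q * k j := by
        rw [k_succ, ← mul_assoc, Nat.div_mul_cancel (Nat.dvd_of_mod_eq_zero h0)]
      rw [e] at h1
      rw [hr]
      exact h1
    · have hq2 : q = q / N j * N j + q % N j := (Nat.div_add_mod' q (N j)).symm
      have hy : y j q = pi (y (j + 1) (q / N j)) (q % N j) := by
        conv_lhs => rw [hq2]
        exact y_block j _ _ (Nat.mod_lt _ (by omega))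
      by_cases h1 : q % N j = 128
      · have hr : rho j q = a (j + 1) := by
          rw [rho, dif_neg hq.ne', if_neg h0, if_pos h1]
        have hyA : y j q = 2 := by rw [hy, h1]; simp [pi]
        have hyC : y j (q + 1) = 0 := by
          have e : q + 1 = q / N j * N j + 129 := by omega
          rw [e, y_block j _ _ (by omega)]
          simp [pi]
        have hyB : y j 1 = 1 := by
          have e : 1 = 0 * N j + 1 := by omega
          rw [e, y_block j 0 1 (by omega), y_zero]
          rfl
        obtain ⟨h2, h3, h4⟩ := val_BC j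
        have hb := b_lt j
        rw [hr]
        refine ⟨?_, ?_⟩
        · intro t ht
          have ht' : t < k j + b j := ht
          rcases lt_or_ge t (k j) with hc | hc
          · rw [y_val j q t hc, hyA, hx0 t hc]
          · have e1 : q * k j + t = (q + 1) * k j + (t - k j) := by
              rw [add_mul, one_mul]; omega
            have e2 : t = 1 * k j + (t - k j) := by omega
            rw [e1, y_val j _ _ (by omega), hyC]
            conv_rhs => rw [e2]
            rw [y_val j _ _ (by omega), hyB]
            exact (h2 _ (by omega)).symm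
        · have e1 : q * k j + a (j + 1) = (q + 1) * k j + b j := by
            show q * k j + (k j + b j) = _
            ring
          have e2 : a (j + 1) = 1 * k j + b j := by
            show k j + b j = _
            ring
          rw [e1, e2, y_val j _ _ hb, y_val j _ _ hb, hyC, hyB, h3, h4]
          decide
      · have hr : rho j q = a j := by
          rw [rho, dif_neg hq.ne', if_neg h0, if_neg h1]
        have hs : y j q ≠ 2 := by
          rw [hy]
          unfold pi
          rw [if_neg (by tauto)]
          split_ifs <;> decide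
        obtain ⟨h2, h3⟩ := val_A j (y j q) hs
        have ha := a_lt j
        rw [hr]
        refine ⟨?_, ?_⟩
        · intro t ht
          rw [y_val j q t (by omega), hx0 t (by omega)]
          exact (h2 t ht).symm
        · rw [y_val j q _ ha, hx0 _ ha]
          exact h3

theorem rho_mul (j q : ℕ) (hq : 0 < q) : rho j (q * N j) = rho (j + 1) q := by
  have hN := N_ge j
  rw [rho, dif_neg (by positivity), if_pos (Nat.mul_mod_left q (N j)),
    Nat.mul_div_cancel _ (by omega)]

theorem rho_zero_mul (j : ℕ) : ∀ q, 0 < q → rho 0 (q * k j) = rho j q := by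
  induction j with
  | zero => intro q _; simp [k]
  | succ j ih =>
    intro q hq
    have hN := N_ge j
    rw [k_succ, ← mul_assoc, ih _ (by positivity), rho_mul j q hq]

theorem a_le_rho (q : ℕ) : ∀ j, 0 < q → a j ≤ rho j q := by
  induction q using Nat.strong_induction_on with
  | _ q ih =>
    intro j hq
    have hN := N_ge j
    rw [rho, dif_neg hq.ne']
    split_ifs with h1 h2
    · have hq' : 0 < q / N j := by
        apply Nat.pos_of_ne_zero
        intro h
        have := Nat.div_add_mod q (N j)
        rw [h, h1] at this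
        omega
      exact (a_mono (Nat.le_succ j)).trans (ih _ (Nat.div_lt_self hq (by omega)) (j + 1) hq')
    · exact a_mono (Nat.le_succ j)
    · exact le_refl _

theorem rho_special (j : ℕ) : rho 0 (128 * k j) = a (j + 1) := by
  rw [rho_zero_mul j 128 (by norm_num)]
  have hN := N_ge j
  rw [rho, dif_neg (by norm_num), if_neg (by rw [Nat.mod_eq_of_lt (by omega)]; norm_num),
    if_pos (Nat.mod_eq_of_lt (by omega))]

theorem rho_cases (q : ℕ) : ∀ j, 0 < q → (∃ i, k i ∣ q * k j ∧ rho j q = a i) ∨
    (∃ i, (q * k j) % k (i + 1) = 128 * k i ∧ rho j q = a (i + 1)) := by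
  induction q using Nat.strong_induction_on with
  | _ q ih =>
    intro j hq
    have hN := N_ge j
    rw [rho, dif_neg hq.ne']
    split_ifs with h1 h2
    · have hq' : 0 < q / N j := by
        apply Nat.pos_of_ne_zero
        intro h
        have := Nat.div_add_mod q (N j)
        rw [h, h1] at this
        omega
      have e : q / N j * k (j + 1) = q * k j := by
        rw [k_succ, ← mul_assoc, Nat.div_mul_cancel (Nat.dvd_of_mod_eq_zero h1)]
      have h3 := ih _ (Nat.div_lt_self hq (by omega)) (j + 1) hq'
      rw [e] at h3
      exact h3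
    · right
      refine ⟨j, ?_, rfl⟩
      rw [k_succ, Nat.mul_mod_mul_right, h2]
    · left
      exact ⟨j, Dvd.intro_left q rfl, rfl⟩

end Pool.Agent.Lib.MP_ef3a35_an
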