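import Mathlib

set_option autoImplicit false

namespace Pool.Agent.Lib.MP_ef3a35_an

open Filter Topology

/-- The Schwarzian derivative `f'''/f' - (3/2) (f''/f')²`. -/
noncomputable def schwarzian (f : ℝ → ℝ) (x : ℝ) : ℝ :=
  iteratedDeriv 3 f x / deriv f x - 3 / 2 * (iteratedDeriv 2 f x / deriv f x) ^ 2

/-- `f` restricts to an S-unimodal map `[0,1] → [0,1]` with turning point `c`: continuous,
increasing on `[0,c]`, decreasing on `[c,1]`, `C³` with nonzero derivative and negative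
Schwarzian derivative away from `c`, and non-flat at `c`. -/
structure SUnimodal (f : ℝ → ℝ) (c : ℝ) : Prop where
  mapsTo : Set.MapsTo f (Set.Icc 0 1) (Set.Icc 0 1)
  turning : c ∈ Set.Ioo (0 : ℝ) 1
  cont : ContinuousOn f (Set.Icc 0 1)
  incr : StrictMonoOn f (Set.Icc 0 c)
  decr : StrictAntiOn f (Set.Icc c 1)
  smooth : ∀ x ∈ Set.Icc (0 : ℝ) 1, x ≠ c → ContDiffAt ℝ 3 f x
  schwarz : ∀ x ∈ Set.Icc (0 : ℝ) 1, x ≠ c → deriv f x ≠ 0 ∧ schwarzian f x < 0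
  nonflat : ∃ l > (1 : ℝ), ∃ φ : ℝ → ℝ, ContDiffAt ℝ 3 φ c ∧ φ c = 0 ∧ deriv φ c ≠ 0 ∧
    ∀ᶠ x in 𝓝 c, f x = f c - |φ x| ^ l

/-- The turning point is regularly recurrent: for every neighbourhood `U` of `c` there is
`k ≥ 1` with `f^(nk)(c) ∈ U` for all `n ≥ 1`. -/
def RegularlyRecurrent (f : ℝ → ℝ) (c : ℝ) : Prop :=
  ∀ U ∈ 𝓝 c, ∃ k ≥ 1, ∀ n ≥ 1, f^[n * k] c ∈ U

open Classical in
/-- The kneading sequence: `e_i` (`i ≥ 1`) tells whether `c_i = f^i(c)` is to the right of `c`. -/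
noncomputable def kneading (f : ℝ → ℝ) (c : ℝ) (i : ℕ) : Bool := decide (c < f^[i] c)

/-- `R(m)`: the largest `r` such that `e_{m+i} = e_i` for `1 ≤ i ≤ r` (possibly `∞`). -/
noncomputable def ret (e : ℕ → Bool) (m : ℕ) : ℕ∞ :=
  ⨆ (r : ℕ) (_ : ∀ i, 1 ≤ i → i ≤ r → e (m + i) = e i), (r : ℕ∞)

open Classical in
/-- Slow recurrence:
`lim_{l → ∞} limsup_{i → ∞} (1/i) ∑_{1 ≤ j ≤ i, R(j) ≥ l} R(j) = 0`. -/
def SlowlyRecurrent (e : ℕ → Bool) : Prop :=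
  Tendsto (fun l : ℕ => limsup (fun i : ℕ =>
    (∑ j ∈ (Finset.Icc 1 i).filter (fun j => (l : ℕ∞) ≤ ret e j), (ret e j : ENNReal)) /
      (i : ENNReal)) atTop) atTop (𝓝 0)

/-- The Collet-Eckmann condition: there are `κ > 0`, `Λ > 1` with
`|(f^n)'(f(c))| > κ Λ^n` for all `n ≥ 1`. -/
def ColletEckmann (f : ℝ → ℝ) (c : ℝ) : Prop :=
  ∃ κ > (0 : ℝ), ∃ Λ > (1 : ℝ), ∀ n ≥ 1, κ * Λ ^ n < |deriv (f^[n]) (f c)|

end Pool.Agent.Lib.MP_ef3a35_an
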