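import Mathlib
import Pool.Agent.Lib.MP_ef3a35_an.Comb

set_option autoImplicit false

namespace Pool.Agent.Lib.MP_ef3a35_an

theorem rho_le_sum {X m : ℕ} (h1 : 1 ≤ m) (h2 : m ≤ X) : rho 0 m ≤
    ∑ j ∈ Finset.range X, a (j + 1) * ((if k (j + 1) ∣ m then 1 else 0) +
      (if m % k (j + 1) = 128 * k j then 1 else 0)) := by
  have h3 := rho_cases m 0 h1
  have hk0 : m * k 0 = m := by simp [k]
  rw [hk0] at h3
  rcases h3 with ⟨i, hi, hr⟩ | ⟨i, hi, hr⟩
  · cases i with
    | zero => rw [hr]; exact Nat.zero_le _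
    | succ j =>
      have hj : j < X := by
        have := Nat.le_of_dvd h1 hi
        have := lt_k (j + 1)
        omega
      rw [hr]
      calc a (j + 1) ≤ a (j + 1) * ((if k (j + 1) ∣ m then 1 else 0) +
            (if m % k (j + 1) = 128 * k j then 1 else 0)) := by
            rw [if_pos hi]; exact Nat.le_mul_of_pos_right _ (by omega)
        _ ≤ _ := Finset.single_le_sum (f := fun j => a (j + 1) * ((if k (j + 1) ∣ m then 1 else 0) +
            (if m % k (j + 1) = 128 * k j then 1 else 0))) (fun _ _ => Nat.zero_le _)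
            (Finset.mem_range.2 hj)
  · have hj : i < X := by
      have h4 := Nat.mod_le m (k (i + 1))
      have := lt_k i
      omega
    rw [hr]
    calc a (i + 1) ≤ a (i + 1) * ((if k (i + 1) ∣ m then 1 else 0) +
          (if m % k (i + 1) = 128 * k i then 1 else 0)) := by
          rw [if_pos hi]; exact Nat.le_mul_of_pos_right _ (by omega)
      _ ≤ _ := Finset.single_le_sum (f := fun j => a (j + 1) * ((if k (j + 1) ∣ m then 1 else 0) +
          (if m % k (j + 1) = 128 * k j then 1 else 0))) (fun _ _ => Nat.zero_le _)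
          (Finset.mem_range.2 hj)

theorem count1 (X K : ℕ) : ∑ m ∈ Finset.Icc 1 X, (if K ∣ m then 1 else 0) = X / K := by
  rw [← Nat.Ioc_filter_dvd_card_eq_div, Finset.card_filter]
  rfl

theorem count2 (X K r : ℕ) (hK : 0 < K) (hr : 0 < r) :
    ∑ m ∈ Finset.Icc 1 X, (if m % K = r then 1 else 0) ≤ X / K + (if r ≤ X then 1 else 0) := by
  rw [← Finset.card_filter]
  by_cases h : r ≤ X
  · rw [if_pos h]
    calc ((Finset.Icc 1 X).filter fun m => m % K = r).card ≤ (Finset.range (X / K + 1)).card := by
          apply Finset.card_le_card_of_injOn (fun m => m / K)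
          · intro m hm
            simp only [Finset.coe_filter, Finset.mem_Icc, Set.mem_ofPred_eq] at hm
            simp only [Finset.coe_range, Set.mem_Iio]
            exact Nat.lt_succ_of_le (Nat.div_le_div_right hm.1.2)
          · intro m hm n hn hmn
            simp only [Finset.coe_filter, Finset.mem_Icc, Set.mem_ofPred_eq] at hm hn
            have h1 := Nat.div_add_mod m K
            have h2 := Nat.div_add_mod n K
            simp only at hmn
            rw [hm.2] at h1
            rw [hn.2, ← hmn] at h2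
            omega
      _ = _ := by rw [Finset.card_range]
  · rw [if_neg h, add_zero]
    have : ((Finset.Icc 1 X).filter fun m => m % K = r) = ∅ := by
      rw [Finset.filter_eq_empty_iff]
      intro m hm hmr
      rw [Finset.mem_Icc] at hm
      have := Nat.mod_le m K
      omega
    rw [this]
    simp

theorem geo_N (J : ℕ) : ∑ j ∈ Finset.range J, (1 : ℝ) / (N j : ℝ) ≤ 1 / 128 := by
  have h : ∑ j ∈ Finset.range J, (1 : ℝ) / (N j : ℝ) = 1 / 128 - 1 / (128 * 2 ^ J) := by
    induction J with
    | zero => simp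
    | succ J ih =>
      rw [Finset.sum_range_succ, ih]
      unfold N
      push_cast
      have : (2 : ℝ) ^ J ≠ 0 := by positivity
      field_simp
      ring
  rw [h]
  have : (0 : ℝ) ≤ 1 / (128 * 2 ^ J) := by positivity
  linarith

theorem geo_k (J : ℕ) : ∑ j ∈ Finset.range (J + 1), k j ≤ 2 * k J := by
  induction J with
  | zero => simp [k]
  | succ J ih =>
    rw [Finset.sum_range_succ]
    have := k_succ_ge J
    omega

theorem geo_k2 (X : ℕ) (J : ℕ) :
    64 * ∑ j ∈ Finset.range J, (if 128 * k j ≤ X then k j else 0) ≤ X := by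
  induction J with
  | zero => simp
  | succ J ih =>
    by_cases h : 128 * k J ≤ X
    · have h1 : ∑ j ∈ Finset.range (J + 1), (if 128 * k j ≤ X then k j else 0) ≤
          ∑ j ∈ Finset.range (J + 1), k j := by
        apply Finset.sum_le_sum
        intro j _
        split_ifs <;> omega
      have h2 := geo_k J
      omega
    · rw [Finset.sum_range_succ, if_neg h, add_zero]
      exact ih

theorem sum_rho (X : ℕ) : 16 * ∑ m ∈ Finset.Icc 1 X, rho 0 m ≤ X := by
  have h1 : ∑ m ∈ Finset.Icc 1 X, rho 0 m ≤ ∑ j ∈ Finset.range X, a (j + 1) *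
      (X / k (j + 1) + (X / k (j + 1) + (if 128 * k j ≤ X then 1 else 0))) := by
    calc ∑ m ∈ Finset.Icc 1 X, rho 0 m ≤ ∑ m ∈ Finset.Icc 1 X, ∑ j ∈ Finset.range X,
          a (j + 1) * ((if k (j + 1) ∣ m then 1 else 0) +
          (if m % k (j + 1) = 128 * k j then 1 else 0)) := by
          apply Finset.sum_le_sum
          intro m hm
          rw [Finset.mem_Icc] at hm
          exact rho_le_sum hm.1 hm.2
      _ = ∑ j ∈ Finset.range X, a (j + 1) * (∑ m ∈ Finset.Icc 1 X, (if k (j + 1) ∣ m then 1 else 0)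
          + ∑ m ∈ Finset.Icc 1 X, (if m % k (j + 1) = 128 * k j then 1 else 0)) := by
          rw [Finset.sum_comm]
          apply Finset.sum_congr rfl
          intro j _
          rw [← Finset.sum_add_distrib, Finset.mul_sum]
      _ ≤ _ := by
          apply Finset.sum_le_sum
          intro j _
          apply Nat.mul_le_mul_left
          apply Nat.add_le_add
          · exact (count1 X (k (j + 1))).le
          · have := k_pos j
            exact count2 X _ _ (k_pos (j + 1)) (by omega)
  have h2 : ((∑ m ∈ Finset.Icc 1 X, rho 0 m : ℕ) : ℝ) ≤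
      ∑ j ∈ Finset.range X, (4 * (X : ℝ) * (1 / (N j : ℝ)) +
        2 * (if 128 * k j ≤ X then k j else 0 : ℕ)) := by
    refine le_trans (Nat.cast_le.2 h1) ?_
    push_cast
    apply Finset.sum_le_sum
    intro j _
    have hN : (0 : ℝ) < N j := by have := N_ge j; exact_mod_cast (by omega : 0 < N j)
    have hk : (0 : ℝ) < k j := by exact_mod_cast k_pos j
    have ha : (a (j + 1) : ℝ) ≤ 2 * k j := by exact_mod_cast a_succ_le j
    have h3 : ((X / k (j + 1) : ℕ) : ℝ) ≤ X / (N j * k j) := by
      refine le_trans Nat.cast_div_le ?_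
      rw [k_succ]
      push_cast
      exact le_refl _
    have h4 : (0 : ℝ) ≤ ((X / k (j + 1) : ℕ) : ℝ) := by positivity
    have h5 : (a (j + 1) : ℝ) * ((X / k (j + 1) : ℕ) : ℝ) ≤ 2 * X * (1 / N j) := by
      calc (a (j + 1) : ℝ) * ((X / k (j + 1) : ℕ) : ℝ) ≤ (2 * k j) * (X / (N j * k j)) :=
            mul_le_mul ha h3 h4 (by positivity)
        _ = _ := by field_simp
    split_ifs with hc
    · push_cast
      nlinarith
    · push_cast
      nlinarith
  have h3 : ∑ j ∈ Finset.range X, (4 * (X : ℝ) * (1 / (N j : ℝ)) +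
        2 * ((if 128 * k j ≤ X then k j else 0 : ℕ) : ℝ)) ≤ X / 16 := by
    rw [Finset.sum_add_distrib, ← Finset.mul_sum, ← Finset.mul_sum]
    have h4 := geo_N X
    have h5 : (64 : ℝ) * ∑ j ∈ Finset.range X, ((if 128 * k j ≤ X then k j else 0 : ℕ) : ℝ) ≤ X := by
      exact_mod_cast geo_k2 X X
    have hX : (0 : ℝ) ≤ X := by positivity
    have h6 : 4 * (X : ℝ) * ∑ j ∈ Finset.range X, (1 : ℝ) / (N j : ℝ) ≤ 4 * X * (1 / 128) :=
      mul_le_mul_of_nonneg_left h4 (by positivity)
    linarith
  have h4 : (16 : ℝ) * ((∑ m ∈ Finset.Icc 1 X, rho 0 m : ℕ) : ℝ) ≤ X := by linarith [h2.trans h3]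
  exact_mod_cast h4

end Pool.Agent.Lib.MP_ef3a35_an
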