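import Mathlib
import Pool.Agent.Lib.MP_ef3a35_an.Sum

set_option autoImplicit false

namespace Pool.Agent.Lib.MP_ef3a35_an

/-- the three blocks `RLLLLR`, `RLLLRL`, `RLLRRR` (`true` stands for `R`) -/
def U (s : Fin 3) (i : ℕ) : Bool :=
  (if s = 2 then [true, false, false, false, false, true]
    else if s = 1 then [true, false, false, false, true, false]
    else [true, false, false, true, true, true]).getD i false

/-- the kneading sequence (indices from `1`) -/
def K (i : ℕ) : Bool := U (y 0 ((i - 1) / 6)) ((i - 1) % 6)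

theorem K_block (q t : ℕ) (ht : t < 6) : K (6 * q + t + 1) = U (y 0 q) t := by
  unfold K
  rw [Nat.add_sub_cancel, Nat.mul_add_div (by norm_num), Nat.div_eq_of_lt ht, add_zero,
    Nat.mul_add_mod, Nat.mod_eq_of_lt ht]

theorem K1 : K 1 = true := by
  have := K_block 0 0 (by norm_num)
  rw [y_zero] at this
  exact this

theorem K2 : K 2 = false := by
  have := K_block 0 1 (by norm_num)
  rw [y_zero] at this
  exact this

theorem K3 : K 3 = false := by
  have := K_block 0 2 (by norm_num)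
  rw [y_zero] at this
  exact this

theorem K4 : K 4 = false := by
  have := K_block 0 3 (by norm_num)
  rw [y_zero] at this
  exact this

/-- parity of the number of `R`s among `K 1, …, K s` -/
def par : ℕ → Bool
  | 0 => false
  | s + 1 => xor (par s) (K (s + 1))

/-- parity of the number of `R`s among the first `t` letters of a block -/
def parU (s : Fin 3) : ℕ → Bool
  | 0 => false
  | t + 1 => xor (parU s t) (U s t)

theorem par_add (q : ℕ) (h : par (6 * q) = false) (t : ℕ) (ht : t ≤ 6) :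
    par (6 * q + t) = parU (y 0 q) t := by
  induction t with
  | zero => rw [add_zero, h]; rfl
  | succ t ih =>
    show xor (par (6 * q + t)) (K (6 * q + t + 1)) = xor (parU (y 0 q) t) (U (y 0 q) t)
    rw [ih (by omega), K_block q t (by omega)]

theorem parU6 : ∀ s : Fin 3, parU s 6 = false := by decide

theorem par_mul (q : ℕ) : par (6 * q) = false := by
  induction q with
  | zero => rfl
  | succ q ih =>
    rw [mul_add, mul_one, par_add q ih 6 le_rfl, parU6]

theorem par_block (q t : ℕ) (ht : t ≤ 6) : par (6 * q + t) = parU (y 0 q) t :=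
  par_add q (par_mul q) t ht

theorem par_one (q : ℕ) : par (6 * q + 1) = true := by
  rw [par_block q 1 (by norm_num)]
  generalize y 0 q = s
  revert s; decide

theorem par_small (s : ℕ) (h1 : 1 ≤ s) (h2 : s ≤ 3) : par s = true := by
  have h := par_block 0 s (by omega)
  rw [mul_zero, zero_add, y_zero] at h
  rw [h]
  interval_cases s <;> rfl

theorem brk_big (m : ℕ) (hm : 0 < m) : ∃ s0, 4 ≤ s0 ∧ s0 ≤ 5 ∧
    (∀ t, 1 ≤ t → t < 6 * rho 0 m + s0 → K (6 * m + t) = K t) ∧
    K (6 * m + (6 * rho 0 m + s0)) ≠ K (6 * rho 0 m + s0) ∧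
    par (6 * rho 0 m + s0) = true := by
  obtain ⟨h1, h2⟩ := rho_spec m 0 hm
  simp only [k, mul_one] at h1 h2
  have hfin : ∀ s s' : Fin 3, s' < s → ∃ s0 : Fin 6, 4 ≤ s0.val ∧ s0.val ≤ 5 ∧
      (∀ t : Fin 6, t.val + 1 < s0.val → U s' t = U s t) ∧ U s' (s0.val - 1) ≠ U s (s0.val - 1) ∧
      parU s s0 = true := by decide
  obtain ⟨s0, h3, h4, h5, h6, h7⟩ := hfin _ _ h2
  refine ⟨s0, h3, h4, ?_, ?_, ?_⟩
  · intro t ht1 ht2
    obtain ⟨t', rfl⟩ : ∃ t', t = t' + 1 := ⟨t - 1, by omega⟩
    have e1 : 6 * m + (t' + 1) = 6 * (m + t' / 6) + t' % 6 + 1 := by omega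
    have e2 : t' + 1 = 6 * (t' / 6) + t' % 6 + 1 := by omega
    rw [e1, K_block _ _ (Nat.mod_lt _ (by norm_num))]
    conv_rhs => rw [e2, K_block _ _ (Nat.mod_lt _ (by norm_num))]
    rcases lt_or_ge (t' / 6) (rho 0 m) with hc | hc
    · rw [h1 _ hc]
    · have e3 : t' / 6 = rho 0 m := by omega
      rw [e3]
      exact h5 ⟨t' % 6, Nat.mod_lt _ (by norm_num)⟩ (by show t' % 6 + 1 < s0.val; omega)
  · have e1 : 6 * m + (6 * rho 0 m + s0) = 6 * (m + rho 0 m) + (s0.val - 1) + 1 := by omega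
    have e2 : 6 * rho 0 m + s0.val = 6 * rho 0 m + (s0.val - 1) + 1 := by omega
    rw [e1, e2, K_block _ _ (by omega), K_block _ _ (by omega)]
    exact h6
  · rw [par_block _ _ (by omega)]
    exact h7

theorem brk_small (i : ℕ) (hi : i % 6 ≠ 0) : ∃ s, 1 ≤ s ∧ s ≤ 3 ∧
    (∀ t, 1 ≤ t → t < s → K (i + t) = K t) ∧ K (i + s) ≠ K s := by
  have hfin : ∀ s s' : Fin 3, ∀ r : Fin 6, r.val ≠ 0 →
      ¬ ((if r.val < 6 then U s r else U s' (r.val - 6)) = true ∧
      (if r.val + 1 < 6 then U s (r.val + 1) else U s' (r.val + 1 - 6)) = false ∧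
      (if r.val + 2 < 6 then U s (r.val + 2) else U s' (r.val + 2 - 6)) = false) := by decide
  have h1 := hfin (y 0 (i / 6)) (y 0 (i / 6 + 1)) ⟨i % 6, Nat.mod_lt _ (by norm_num)⟩ hi
  have hK : ∀ n < 12, K (6 * (i / 6) + n + 1) =
      if n < 6 then U (y 0 (i / 6)) n else U (y 0 (i / 6 + 1)) (n - 6) := by
    intro n hn
    split_ifs with hc
    · exact K_block _ _ hc
    · have e : 6 * (i / 6) + n + 1 = 6 * (i / 6 + 1) + (n - 6) + 1 := by omega
      rw [e, K_block _ _ (by omega)]
  have hm := Nat.mod_lt i (by norm_num : 0 < 6)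
  have hd := Nat.div_add_mod i 6
  have e1 : K (i + 1) = (if i % 6 < 6 then U (y 0 (i / 6)) (i % 6) else
      U (y 0 (i / 6 + 1)) (i % 6 - 6)) := by
    rw [← hK _ (by omega)]; congr 1; omega
  have e2 : K (i + 2) = (if i % 6 + 1 < 6 then U (y 0 (i / 6)) (i % 6 + 1) else
      U (y 0 (i / 6 + 1)) (i % 6 + 1 - 6)) := by
    rw [← hK _ (by omega)]; congr 1; omega
  have e3 : K (i + 3) = (if i % 6 + 2 < 6 then U (y 0 (i / 6)) (i % 6 + 2) else
      U (y 0 (i / 6 + 1)) (i % 6 + 2 - 6)) := by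
    rw [← hK _ (by omega)]; congr 1; omega
  simp only at h1
  rw [← e1, ← e2, ← e3] at h1
  by_cases c1 : K (i + 1) = K 1
  · by_cases c2 : K (i + 2) = K 2
    · by_cases c3 : K (i + 3) = K 3
      · rw [K1] at c1; rw [K2] at c2; rw [K3] at c3
        exact absurd ⟨c1, c2, c3⟩ h1
      · refine ⟨3, by norm_num, by norm_num, ?_, c3⟩
        intro t h1 h2
        interval_cases t
        · exact c1
        · exact c2
    · refine ⟨2, by norm_num, by norm_num, ?_, c2⟩
      intro t h1 h2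
      interval_cases t
      exact c1
  · exact ⟨1, le_rfl, by norm_num, fun t h1 h2 => by omega, c1⟩

end Pool.Agent.Lib.MP_ef3a35_an
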