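import Mathlib
import Pool.Agent.Lib.MP_ef3a35_an.Knead

set_option autoImplicit false

namespace Pool.Agent.Lib.MP_ef3a35_an

/-! ### The function `h(t) = √(t²+δ²) - δ` -/

noncomputable def h (δ t : ℝ) : ℝ := Real.sqrt (t ^ 2 + δ ^ 2) - δ

noncomputable def g (δ s : ℝ) : ℝ := Real.sqrt (s ^ 2 + 2 * δ * s)

variable {δ : ℝ}

theorem sq_pos' (hδ : 0 < δ) (t : ℝ) : 0 < t ^ 2 + δ ^ 2 := by positivity

theorem sqrt_pos' (hδ : 0 < δ) (t : ℝ) : 0 < Real.sqrt (t ^ 2 + δ ^ 2) :=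
  Real.sqrt_pos.2 (sq_pos' hδ t)

theorem sqrt_sq' (hδ : 0 < δ) (t : ℝ) :
    Real.sqrt (t ^ 2 + δ ^ 2) * Real.sqrt (t ^ 2 + δ ^ 2) = t ^ 2 + δ ^ 2 :=
  Real.mul_self_sqrt (sq_pos' hδ t).le

theorem abs_le_sqrt (hδ : 0 < δ) (t : ℝ) : |t| ≤ Real.sqrt (t ^ 2 + δ ^ 2) :=
  Real.abs_le_sqrt (by nlinarith [sq_nonneg δ])

theorem sqrt_le (hδ : 0 < δ) (t : ℝ) : Real.sqrt (t ^ 2 + δ ^ 2) ≤ |t| + δ := by
  rw [Real.sqrt_le_left (by positivity)]
  nlinarith [sq_abs t, abs_nonneg t]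

theorem h_zero (hδ : 0 < δ) : h δ 0 = 0 := by
  unfold h
  rw [zero_pow two_ne_zero, zero_add, Real.sqrt_sq hδ.le, sub_self]

theorem h_nonneg (hδ : 0 < δ) (t : ℝ) : 0 ≤ h δ t := by
  unfold h
  have : δ ≤ Real.sqrt (t ^ 2 + δ ^ 2) := Real.le_sqrt_of_sq_le (by nlinarith [sq_nonneg t])
  linarith

theorem h_le_abs (hδ : 0 < δ) (t : ℝ) : h δ t ≤ |t| := by
  unfold h
  have := sqrt_le hδ t
  linarith

theorem h_neg (t : ℝ) : h δ (-t) = h δ t := by unfold h; rw [neg_sq]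

theorem h_abs (t : ℝ) : h δ |t| = h δ t := by unfold h; rw [sq_abs]

theorem h_sub (hδ : 0 < δ) (u v : ℝ) : (h δ u - h δ v) *
    (Real.sqrt (u ^ 2 + δ ^ 2) + Real.sqrt (v ^ 2 + δ ^ 2)) = (u - v) * (u + v) := by
  unfold h
  nlinarith [sqrt_sq' hδ u, sqrt_sq' hδ v]

theorem h_lip (hδ : 0 < δ) (u v : ℝ) : |h δ u - h δ v| ≤ |u - v| := by
  have h1 := h_sub hδ u v
  have hu := sqrt_pos' hδ u
  have hv := sqrt_pos' hδ v
  have h2 : |h δ u - h δ v| * (Real.sqrt (u ^ 2 + δ ^ 2) + Real.sqrt (v ^ 2 + δ ^ 2)) =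
      |u - v| * |u + v| := by
    rw [← abs_mul, ← h1, abs_mul, abs_of_pos (add_pos hu hv)]
  have h3 : |u + v| ≤ Real.sqrt (u ^ 2 + δ ^ 2) + Real.sqrt (v ^ 2 + δ ^ 2) :=
    (abs_add_le u v).trans (add_le_add (abs_le_sqrt hδ u) (abs_le_sqrt hδ v))
  have h4 : |h δ u - h δ v| * (Real.sqrt (u ^ 2 + δ ^ 2) + Real.sqrt (v ^ 2 + δ ^ 2)) ≤
      |u - v| * (Real.sqrt (u ^ 2 + δ ^ 2) + Real.sqrt (v ^ 2 + δ ^ 2)) := by
    rw [h2]
    exact mul_le_mul_of_nonneg_left h3 (abs_nonneg _)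
  exact le_of_mul_le_mul_right h4 (add_pos hu hv)

/-- lower bound of the expansion factor -/
noncomputable def D (δ t : ℝ) : ℝ := |t| / (|t| + 2 * δ)

theorem D_nonneg (hδ : 0 < δ) (t : ℝ) : 0 ≤ D δ t := by unfold D; positivity

theorem h_lower (hδ : 0 < δ) {u v : ℝ} (huv : 0 ≤ u * v) :
    |u - v| * D δ u ≤ |h δ u - h δ v| := by
  have h1 := h_sub hδ u v
  have hu := sqrt_pos' hδ u
  have hv := sqrt_pos' hδ v
  have h2 : |h δ u - h δ v| * (Real.sqrt (u ^ 2 + δ ^ 2) + Real.sqrt (v ^ 2 + δ ^ 2)) =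
      |u - v| * |u + v| := by
    rw [← abs_mul, ← h1, abs_mul, abs_of_pos (add_pos hu hv)]
  have h3 : |u + v| = |u| + |v| := by
    rcases mul_nonneg_iff.1 huv with ⟨h, h'⟩ | ⟨h, h'⟩
    · rw [abs_of_nonneg h, abs_of_nonneg h', abs_of_nonneg (add_nonneg h h')]
    · rw [abs_of_nonpos h, abs_of_nonpos h', abs_of_nonpos (add_nonpos h h')]
      ring
  have hs : Real.sqrt (u ^ 2 + δ ^ 2) + Real.sqrt (v ^ 2 + δ ^ 2) ≤ |u| + |v| + 2 * δ := by
    have := sqrt_le hδ u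
    have := sqrt_le hδ v
    linarith
  have h4 : D δ u * (Real.sqrt (u ^ 2 + δ ^ 2) + Real.sqrt (v ^ 2 + δ ^ 2)) ≤ |u| + |v| := by
    calc D δ u * (Real.sqrt (u ^ 2 + δ ^ 2) + Real.sqrt (v ^ 2 + δ ^ 2))
        ≤ D δ u * (|u| + |v| + 2 * δ) := mul_le_mul_of_nonneg_left hs (D_nonneg hδ u)
      _ ≤ |u| + |v| := by
        unfold D
        rw [div_mul_eq_mul_div, div_le_iff₀ (by positivity)]
        nlinarith [abs_nonneg u, abs_nonneg v]
  have h5 : |u - v| * D δ u * (Real.sqrt (u ^ 2 + δ ^ 2) + Real.sqrt (v ^ 2 + δ ^ 2)) ≤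
      |h δ u - h δ v| * (Real.sqrt (u ^ 2 + δ ^ 2) + Real.sqrt (v ^ 2 + δ ^ 2)) := by
    rw [h2, h3, mul_assoc]
    exact mul_le_mul_of_nonneg_left h4 (abs_nonneg _)
  exact le_of_mul_le_mul_right h5 (add_pos hu hv)

theorem h_mono {u v : ℝ} (huv : |u| ≤ |v|) : h δ u ≤ h δ v := by
  unfold h
  have : u ^ 2 ≤ v ^ 2 := by rw [← sq_abs u, ← sq_abs v]; exact pow_le_pow_left₀ (abs_nonneg _) huv 2
  have := Real.sqrt_le_sqrt (show u ^ 2 + δ ^ 2 ≤ v ^ 2 + δ ^ 2 by linarith)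
  linarith

theorem g_nonneg (s : ℝ) : 0 ≤ g δ s := Real.sqrt_nonneg _

theorem h_g (hδ : 0 < δ) {s : ℝ} (hs : 0 ≤ s) : h δ (g δ s) = s := by
  unfold h g
  rw [Real.sq_sqrt (by positivity)]
  have : s ^ 2 + 2 * δ * s + δ ^ 2 = (s + δ) ^ 2 := by ring
  rw [this, Real.sqrt_sq (by positivity)]
  ring

theorem g_mono (hδ : 0 < δ) {s t : ℝ} (hs : 0 ≤ s) (hst : s ≤ t) : g δ s ≤ g δ t := by
  unfold g
  apply Real.sqrt_le_sqrt
  nlinarith

theorem g_h (hδ : 0 < δ) (t : ℝ) : g δ (h δ t) = |t| := by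
  unfold g
  have : h δ t ^ 2 + 2 * δ * h δ t = t ^ 2 := by
    unfold h
    nlinarith [sqrt_sq' hδ t]
  rw [this, Real.sqrt_sq_eq_abs]

theorem h_one_pos (hδ : 0 < δ) : 0 < h δ 1 := by
  have h1 := g_h hδ 1
  rw [abs_one] at h1
  rcases (h_nonneg hδ 1).lt_or_eq with h2 | h2
  · exact h2
  · rw [← h2] at h1
    simp [g] at h1

theorem h_one_le (hδ : 0 < δ) : h δ 1 ≤ 1 := by
  have := h_le_abs hδ 1
  rwa [abs_one] at this

theorem h_one_ge (hδ : 0 < δ) : 1 - δ ≤ h δ 1 := by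
  unfold h
  have : (1:ℝ) ≤ Real.sqrt (1 ^ 2 + δ ^ 2) := Real.le_sqrt_of_sq_le (by nlinarith)
  linarith

theorem cont_h : Continuous (h δ) := by unfold h; fun_prop

theorem cont_g : Continuous (g δ) := by unfold g; fun_prop

/-! ### The critical orbit -/

/-- the critical orbit of `t ↦ 1 - α h(t)` -/
noncomputable def T (δ α : ℝ) : ℕ → ℝ
  | 0 => 0
  | n + 1 => 1 - α * h δ (T δ α n)

theorem cont_T (n : ℕ) : Continuous (fun α => T δ α n) := by
  induction n with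
  | zero => exact continuous_const
  | succ n ih => exact continuous_const.sub (continuous_id.mul (cont_h.comp ih))

theorem T_one (hδ : 0 < δ) (α : ℝ) : T δ α 1 = 1 := by
  show 1 - α * h δ 0 = 1
  rw [h_zero hδ]; ring

/-- sign of a letter -/
def sg (e : Bool) : ℝ := if e then 1 else -1

/-- inverse branch -/
noncomputable def G (δ α : ℝ) (e : Bool) (z : ℝ) : ℝ := sg e * g δ (max 0 (1 - z) / α)

/-- backward orbit -/
noncomputable def Y (δ α : ℝ) (n : ℕ) : ℕ → ℝ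
  | 0 => 0
  | m + 1 => G δ α (K (n - m)) (Y δ α n m)

theorem cont_Y (n m : ℕ) : ContinuousOn (fun α => Y δ α n m) (Set.Ioi 0) := by
  induction m with
  | zero => exact continuousOn_const
  | succ m ih =>
    show ContinuousOn (fun α => sg (K (n - m)) * g δ (max 0 (1 - Y δ α n m) / α)) (Set.Ioi 0)
    refine continuousOn_const.mul (cont_g.comp_continuousOn ?_)
    refine ContinuousOn.div ?_ continuousOn_id (fun α hα => ne_of_gt hα)
    exact (continuousOn_const (c := (0:ℝ))).sup (continuousOn_const.sub ih)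

theorem G_true_nonneg (α z : ℝ) : 0 ≤ G δ α true z := by
  unfold G sg
  simp only [if_true, one_mul]
  exact g_nonneg _

theorem G_false_nonpos (α z : ℝ) : G δ α false z ≤ 0 := by
  unfold G sg
  have := g_nonneg (δ := δ) (max 0 (1 - z) / α)
  simp
  linarith

theorem G_mono (hδ : 0 < δ) {α : ℝ} (hα : 0 < α) {z w : ℝ} (hzw : z ≤ w) :
    G δ α false z ≤ G δ α false w ∧ G δ α true w ≤ G δ α true z := by
  have h1 : max 0 (1 - w) / α ≤ max 0 (1 - z) / α := by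
    apply div_le_div_of_nonneg_right _ hα.le
    exact max_le_max le_rfl (by linarith)
  have h2 := g_mono hδ (div_nonneg (le_max_left _ _) hα.le) h1
  unfold G sg
  constructor
  · simp
    linarith
  · simp
    exact h2

theorem Y_sign {α : ℝ} {n i : ℕ} (h1 : 1 ≤ i) (h2 : i ≤ n) :
    0 ≤ sg (K i) * Y δ α n (n + 1 - i) := by
  have e : n + 1 - i = (n - i) + 1 := by omega
  rw [e]
  show 0 ≤ sg (K i) * G δ α (K (n - (n - i))) _
  rw [Nat.sub_sub_self h2]
  cases hK : K i with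
  | true => simp only [sg, if_true, one_mul]; exact G_true_nonneg _ _
  | false =>
    have := G_false_nonpos (δ := δ) α (Y δ α n (n - i))
    simp only [sg, Bool.false_eq_true, if_false]
    linarith

theorem Y_step {α : ℝ} {n i : ℕ} (h2 : i ≤ n) :
    Y δ α n (n + 1 - i) = G δ α (K i) (Y δ α n (n + 1 - (i + 1))) := by
  have e : n + 1 - i = (n - i) + 1 := by omega
  have e2 : n + 1 - (i + 1) = n - i := by omega
  rw [e, e2]
  show G δ α (K (n - (n - i))) _ = _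
  rw [Nat.sub_sub_self h2]

theorem rel (hδ : 0 < δ) {α : ℝ} (hα : 0 < α) {n i : ℕ} (s : ℕ) :
    i + (s + 1) ≤ n + 1 → (∀ t, 1 ≤ t → t < s + 1 → K (i + t) = K t) →
    (if par s then Y δ α n (n + 1 - (s + 1)) ≤ Y δ α n (n + 1 - (i + (s + 1))) else
      Y δ α n (n + 1 - (i + (s + 1))) ≤ Y δ α n (n + 1 - (s + 1))) →
    Y δ α n (n + 1 - (i + 1)) ≤ Y δ α n (n + 1 - 1) := by
  induction s with
  | zero =>
    intro _ _ h
    simpa [par] using h
  | succ s ih =>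
    intro h1 h2 h3
    apply ih (by omega) (fun t ht1 ht2 => h2 t ht1 (by omega))
    have e1 : Y δ α n (n + 1 - (s + 1)) = G δ α (K (s + 1)) (Y δ α n (n + 1 - (s + 1 + 1))) :=
      Y_step (by omega)
    have e2 : Y δ α n (n + 1 - (i + (s + 1))) =
        G δ α (K (s + 1)) (Y δ α n (n + 1 - (i + (s + 1 + 1)))) := by
      rw [← h2 (s + 1) (by omega) (by omega)]
      exact Y_step (by omega)
    rw [e1, e2]
    have hp : par (s + 1) = xor (par s) (K (s + 1)) := rfl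
    rw [hp] at h3
    cases hps : par s <;> cases hK : K (s + 1)
    · rw [hps, hK] at h3
      simp only [Bool.false_xor, Bool.false_eq_true, if_false] at h3 ⊢
      exact (G_mono hδ hα h3).1
    · rw [hps, hK] at h3
      simp only [Bool.false_xor, if_true, Bool.false_eq_true, if_false] at h3 ⊢
      exact (G_mono hδ hα h3).2
    · rw [hps, hK] at h3
      simp only [Bool.xor_false, if_true] at h3 ⊢
      exact (G_mono hδ hα h3).1
    · rw [hps, hK] at h3
      simp only [Bool.xor_self, if_true, Bool.false_eq_true, if_false] at h3 ⊢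
      exact (G_mono hδ hα h3).2

theorem adm (q i : ℕ) (h1 : 1 ≤ i) (h2 : i < 6 * q) : ∃ s, i + (s + 1) ≤ 6 * q + 1 ∧
    (∀ t, 1 ≤ t → t < s + 1 → K (i + t) = K t) ∧
    (i + (s + 1) = 6 * q + 1 ∨ K (i + (s + 1)) ≠ K (s + 1)) ∧ par (s + 1) = true := by
  by_cases hi : i % 6 = 0
  · obtain ⟨m, rfl⟩ : ∃ m, i = 6 * m := ⟨i / 6, by omega⟩
    obtain ⟨s0, h3, h4, h5, h6, h7⟩ := brk_big m (by omega)
    by_cases hc : 6 * m + (6 * rho 0 m + s0) ≤ 6 * q + 1
    · refine ⟨6 * rho 0 m + s0 - 1, ?_⟩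
      have e : 6 * rho 0 m + s0 - 1 + 1 = 6 * rho 0 m + s0 := by omega
      rw [e]
      exact ⟨hc, h5, Or.inr h6, h7⟩
    · refine ⟨6 * (q - m), by omega, fun t ht1 ht2 => h5 t ht1 (by omega), Or.inl (by omega),
        par_one _⟩
  · obtain ⟨s, h3, h4, h5, h6⟩ := brk_small i hi
    by_cases hc : i + s ≤ 6 * q + 1
    · refine ⟨s - 1, ?_⟩
      have e : s - 1 + 1 = s := by omega
      rw [e]
      exact ⟨hc, h5, Or.inr h6, par_small s h3 h4⟩
    · refine ⟨6 * q - i, by omega, fun t ht1 ht2 => h5 t ht1 (by omega), Or.inl (by omega), ?_⟩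
      exact par_small _ (by omega) (by omega)

theorem Y_le (hδ : 0 < δ) {α : ℝ} (hα : 0 < α) {q i : ℕ} (h1 : 1 ≤ i) (h2 : i < 6 * q) :
    Y δ α (6 * q) (6 * q + 1 - (i + 1)) ≤ Y δ α (6 * q) (6 * q + 1 - 1) := by
  obtain ⟨s, h3, h4, h5, h6⟩ := adm q i h1 h2
  apply rel hδ hα s h3 h4
  have hs : 0 ≤ sg (K (s + 1)) * Y δ α (6 * q) (6 * q + 1 - (s + 1)) :=
    Y_sign (by omega) (by omega)
  have hi : sg (K (s + 1)) * Y δ α (6 * q) (6 * q + 1 - (i + (s + 1))) ≤ 0 := by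
    rcases h5 with h5 | h5
    · rw [h5, Nat.sub_self]
      show sg _ * 0 ≤ 0
      simp
    · by_cases hc : i + (s + 1) ≤ 6 * q
      · have := Y_sign (δ := δ) (α := α) (n := 6 * q) (i := i + (s + 1)) (by omega) hc
        have e : sg (K (s + 1)) = - sg (K (i + (s + 1))) := by
          cases hK1 : K (s + 1) <;> cases hK2 : K (i + (s + 1))
          · rw [hK1, hK2] at h5; exact absurd rfl h5
          · simp [sg]
          · simp [sg]
          · rw [hK1, hK2] at h5; exact absurd rfl h5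
        rw [e]
        linarith
      · have e : 6 * q + 1 - (i + (s + 1)) = 0 := by omega
        rw [e]
        show sg _ * 0 ≤ 0
        simp
  have hp : xor (par s) (K (s + 1)) = true := h6
  cases hps : par s <;> cases hK : K (s + 1)
  · rw [hps, hK] at hp; exact absurd hp (by decide)
  · rw [hK] at hs hi
    simp only [sg, if_true, one_mul] at hs hi
    simp only [Bool.false_eq_true, if_false]
    linarith
  · rw [hK] at hs hi
    simp only [sg, Bool.false_eq_true, if_false] at hs hi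
    simp only [if_true]
    linarith
  · rw [hps, hK] at hp; exact absurd hp (by decide)

theorem Y_eq_T (hδ : 0 < δ) {α : ℝ} (hα : 0 < α) {q : ℕ}
    (hY : Y δ α (6 * q) (6 * q + 1 - 1) = 1) :
    ∀ i, 1 ≤ i → i ≤ 6 * q → T δ α i = Y δ α (6 * q) (6 * q + 1 - i) := by
  intro i hi1
  induction i, hi1 using Nat.le_induction with
  | base => intro _; rw [T_one hδ, hY]
  | succ i hi ih =>
    intro hi2
    have h1 := ih (by omega)
    have h2 : Y δ α (6 * q) (6 * q + 1 - (i + 1)) ≤ 1 := by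
      rw [← hY]; exact Y_le hδ hα hi (by omega)
    show 1 - α * h δ (T δ α i) = _
    rw [h1, Y_step (by omega : i ≤ 6 * q)]
    have h3 : h δ (G δ α (K i) (Y δ α (6 * q) (6 * q + 1 - (i + 1)))) =
        (1 - Y δ α (6 * q) (6 * q + 1 - (i + 1))) / α := by
      unfold G
      rw [max_eq_right (by linarith)]
      have h4 : h δ (g δ ((1 - Y δ α (6 * q) (6 * q + 1 - (i + 1))) / α)) =
          (1 - Y δ α (6 * q) (6 * q + 1 - (i + 1))) / α :=
        h_g hδ (div_nonneg (by linarith) hα.le)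
      cases hK : K i with
      | true => simp only [sg, if_true, one_mul]; exact h4
      | false =>
        simp only [sg, Bool.false_eq_true, if_false, neg_one_mul]
        rw [h_neg]; exact h4
    rw [h3]
    field_simp
    ring

end Pool.Agent.Lib.MP_ef3a35_an
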