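import Mathlib
import Pool.Agent.Lib.MP_ef3a35_an.Hyp

set_option autoImplicit false

namespace Pool.Agent.Lib.MP_ef3a35_an

variable {δ : ℝ}

theorem exists_alpha (hδ : 0 < δ) (q : ℕ) (hq : 1 ≤ q) :
    ∃ α ∈ Set.Icc (1 / h δ 1) (2 / h δ 1), ∀ i, 1 ≤ i → i ≤ 6 * q → 0 ≤ sg (K i) * T δ α i := by
  have hh := h_one_pos hδ
  have hle : 1 / h δ 1 ≤ 2 / h δ 1 := by
    apply div_le_div_of_nonneg_right _ hh.le
    norm_num
  have hlo : (0:ℝ) < 1 / h δ 1 := by positivity
  have hcont : ContinuousOn (fun α => Y δ α (6 * q) (6 * q + 1 - 1))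
      (Set.Icc (1 / h δ 1) (2 / h δ 1)) :=
    (cont_Y (6 * q) (6 * q + 1 - 1)).mono (fun α hα => lt_of_lt_of_le hlo hα.1)
  have h1 : 1 ≤ Y δ (1 / h δ 1) (6 * q) (6 * q + 1 - 1) := by
    rw [Y_step (by omega : 1 ≤ 6 * q), K1]
    have h2 := Y_sign (δ := δ) (α := 1 / h δ 1) (n := 6 * q) (i := 2) (by omega) (by omega)
    rw [K2] at h2
    simp only [sg, Bool.false_eq_true, if_false] at h2
    unfold G
    simp only [sg, if_true, one_mul]
    have h3 : h δ 1 ≤ max 0 (1 - Y δ (1 / h δ 1) (6 * q) (6 * q + 1 - (1 + 1))) / (1 / h δ 1) := by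
      rw [div_div_eq_mul_div, div_one]
      have h4 : 1 ≤ max 0 (1 - Y δ (1 / h δ 1) (6 * q) (6 * q + 1 - (1 + 1))) := by
        apply le_max_of_le_right
        show (1:ℝ) ≤ 1 - Y δ (1 / h δ 1) (6 * q) (6 * q + 1 - 2)
        linarith
      nlinarith
    have h4 := g_mono hδ hh.le h3
    rw [g_h hδ, abs_one] at h4
    exact h4
  have h2 : Y δ (2 / h δ 1) (6 * q) (6 * q + 1 - 1) ≤ 1 := by
    have hall : ∀ m, |Y δ (2 / h δ 1) (6 * q) m| ≤ 1 := by
      intro m
      induction m with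
      | zero => show |(0:ℝ)| ≤ 1; simp
      | succ m ih =>
        have h3 : max 0 (1 - Y δ (2 / h δ 1) (6 * q) m) / (2 / h δ 1) ≤ h δ 1 := by
          rw [div_div_eq_mul_div, div_le_iff₀ (by norm_num)]
          have h4 : max 0 (1 - Y δ (2 / h δ 1) (6 * q) m) ≤ 2 := by
            apply max_le (by norm_num)
            have := (abs_le.1 ih).1
            linarith
          nlinarith
        have h5 := g_mono hδ (div_nonneg (le_max_left _ _) (by positivity)) h3
        rw [g_h hδ, abs_one] at h5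
        show |sg (K (6 * q - m)) * g δ _| ≤ 1
        rw [abs_mul, abs_of_nonneg (g_nonneg _)]
        have h6 : |sg (K (6 * q - m))| = 1 := by
          unfold sg; split_ifs <;> simp
        rw [h6, one_mul]
        exact h5
    exact (abs_le.1 (hall _)).2
  obtain ⟨α, hα, hαe⟩ := intermediate_value_Icc' hle hcont ⟨h2, h1⟩
  have hα0 : 0 < α := lt_of_lt_of_le hlo hα.1
  refine ⟨α, hα, ?_⟩
  intro i hi1 hi2
  rw [Y_eq_T hδ hα0 hαe i hi1 hi2]
  exact Y_sign hi1 hi2

theorem exists_alpha_all (hδ : 0 < δ) :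
    ∃ α ∈ Set.Icc (1 / h δ 1) (2 / h δ 1), ∀ i, 1 ≤ i → 0 ≤ sg (K i) * T δ α i := by
  have hE : (⋂ n : ℕ, {α | α ∈ Set.Icc (1 / h δ 1) (2 / h δ 1) ∧
      ∀ i, 1 ≤ i → i ≤ n → 0 ≤ sg (K i) * T δ α i}).Nonempty := by
    have hclosed : ∀ n : ℕ, IsClosed {α | α ∈ Set.Icc (1 / h δ 1) (2 / h δ 1) ∧
        ∀ i, 1 ≤ i → i ≤ n → 0 ≤ sg (K i) * T δ α i} := by
      intro n
      apply IsClosed.inter isClosed_Icc
      have : {α | ∀ i, 1 ≤ i → i ≤ n → 0 ≤ sg (K i) * T δ α i} =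
          ⋂ i, ⋂ (_ : 1 ≤ i), ⋂ (_ : i ≤ n), {α | 0 ≤ sg (K i) * T δ α i} := by
        ext α; simp
      show IsClosed {α | ∀ i, 1 ≤ i → i ≤ n → 0 ≤ sg (K i) * T δ α i}
      rw [this]
      refine isClosed_iInter (fun i => isClosed_iInter (fun _ => isClosed_iInter (fun _ => ?_)))
      exact isClosed_le continuous_const (continuous_const.mul (cont_T i))
    apply IsCompact.nonempty_iInter_of_sequence_nonempty_isCompact_isClosed
    · intro n α hα
      exact ⟨hα.1, fun i h1 h2 => hα.2 i h1 (by omega)⟩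
    · intro n
      obtain ⟨α, hα, h1⟩ := exists_alpha hδ (n + 1) (by omega)
      exact ⟨α, hα, fun i h2 h3 => h1 i h2 (by omega)⟩
    · exact isCompact_Icc.of_isClosed_subset (hclosed 0) (fun α hα => hα.1)
    · exact hclosed
  obtain ⟨α, hα⟩ := hE
  rw [Set.mem_iInter] at hα
  exact ⟨α, (hα 0).1, fun i h1 => (hα i).2 i h1 le_rfl⟩

/-! ### Estimates for the limit parameter -/

/-- the standing assumptions on the parameter -/
structure Par (δ α : ℝ) : Prop where
  pos : 0 < δ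
  small : δ ≤ 1 / 10 ^ 7
  mem : α ∈ Set.Icc (1 / h δ 1) (2 / h δ 1)
  sign : ∀ i, 1 ≤ i → 0 ≤ sg (K i) * T δ α i

variable {α : ℝ}

theorem Par.le_three (hp : Par δ α) : α ≤ 3 := by
  have h1 := h_one_ge hp.pos
  have h2 := hp.small
  have h3 := h_one_pos hp.pos
  refine hp.mem.2.trans ?_
  rw [div_le_iff₀ h3]
  have : (1:ℝ) / 10 ^ 7 ≤ 1 / 10 := by norm_num
  linarith

theorem Par.one_le (hp : Par δ α) : 1 ≤ α := by
  have h1 := h_one_le hp.pos
  have h3 := h_one_pos hp.pos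
  refine le_trans ?_ hp.mem.1
  rw [le_div_iff₀ h3]
  linarith

theorem Par.mul_h (hp : Par δ α) : α * h δ 1 ≤ 2 := by
  have h3 := h_one_pos hp.pos
  have := hp.mem.2
  rwa [le_div_iff₀ h3] at this

theorem Par.ge (hp : Par δ α) : 8 / 5 ≤ α := by
  have h2 := hp.sign 2 (by norm_num)
  have h3 := hp.sign 3 (by norm_num)
  rw [K2] at h2
  rw [K3] at h3
  simp only [sg, Bool.false_eq_true, if_false] at h2 h3
  have e2 : T δ α 2 = 1 - α * h δ 1 := by
    show 1 - α * h δ (T δ α 1) = _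
    rw [T_one hp.pos]
  have e3 : T δ α 3 = 1 - α * h δ (T δ α 2) := rfl
  have h4 := h_le_abs hp.pos (T δ α 2)
  rw [abs_of_nonpos (by linarith)] at h4
  have h5 := h_one_le hp.pos
  have h6 := hp.one_le
  have h7 : α * h δ (T δ α 2) ≤ α * (α - 1) := by
    apply mul_le_mul_of_nonneg_left _ (by linarith)
    have : α * h δ 1 ≤ α := by nlinarith
    linarith
  by_contra hc
  push Not at hc
  nlinarith

theorem Par.bd (hp : Par δ α) (i : ℕ) : |T δ α i| ≤ 1 := by
  induction i with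
  | zero => show |(0:ℝ)| ≤ 1; simp
  | succ i ih =>
    show |1 - α * h δ (T δ α i)| ≤ 1
    have h1 := h_nonneg hp.pos (T δ α i)
    have h2 : h δ (T δ α i) ≤ h δ 1 := h_mono (by rw [abs_one]; exact ih)
    have h3 := hp.one_le
    have h4 := hp.mul_h
    rw [abs_le]
    constructor
    · nlinarith
    · nlinarith

theorem Par.diff_le (hp : Par δ α) (i t : ℕ) :
    |T δ α (i + (t + 1)) - T δ α (t + 1)| ≤ α ^ (t + 1) * |T δ α i| := by
  have h1 := hp.one_le
  induction t with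
  | zero =>
    have e : T δ α (i + (0 + 1)) - T δ α (0 + 1) = -(α * h δ (T δ α i)) := by
      rw [zero_add, T_one hp.pos]
      show (1 - α * h δ (T δ α i)) - 1 = _
      ring
    rw [e, abs_neg, abs_of_nonneg (mul_nonneg (by linarith) (h_nonneg hp.pos _)), zero_add, pow_one]
    exact mul_le_mul_of_nonneg_left (h_le_abs hp.pos _) (by linarith)
  | succ t ih =>
    have e : T δ α (i + (t + 1 + 1)) - T δ α (t + 1 + 1) =
        -(α * (h δ (T δ α (i + (t + 1))) - h δ (T δ α (t + 1)))) := by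
      show (1 - α * h δ (T δ α (i + (t + 1)))) - (1 - α * h δ (T δ α (t + 1))) = _
      ring
    rw [e, abs_neg, abs_mul, abs_of_nonneg (by linarith : (0:ℝ) ≤ α)]
    calc α * |h δ (T δ α (i + (t + 1))) - h δ (T δ α (t + 1))|
        ≤ α * |T δ α (i + (t + 1)) - T δ α (t + 1)| :=
          mul_le_mul_of_nonneg_left (h_lip hp.pos _ _) (by linarith)
      _ ≤ α * (α ^ (t + 1) * |T δ α i|) := mul_le_mul_of_nonneg_left ih (by linarith)
      _ = _ := by ring

theorem opp {e e' : Bool} (hne : e ≠ e') {u v : ℝ} (hu : 0 ≤ sg e * u) (hv : 0 ≤ sg e' * v) :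
    |v| ≤ |u - v| := by
  cases e <;> cases e'
  · exact absurd rfl hne
  · simp only [sg, Bool.false_eq_true, if_false, if_true] at hu hv
    rw [abs_of_nonneg (by linarith), abs_of_nonpos (by linarith)]
    linarith
  · simp only [sg, Bool.false_eq_true, if_false, if_true] at hu hv
    rw [abs_of_nonpos (by linarith), abs_of_nonneg (by linarith)]
    linarith
  · exact absurd rfl hne

theorem Par.low (hp : Par δ α) {i s : ℕ} (hs : 1 ≤ s) (hK : K (i + s) ≠ K s) :
    |T δ α s| ≤ 3 ^ s * |T δ α i| := by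
  obtain ⟨t, rfl⟩ : ∃ t, s = t + 1 := ⟨s - 1, by omega⟩
  have h1 := hp.diff_le i t
  have h2 := opp hK (hp.sign (i + (t + 1)) (by omega)) (hp.sign (t + 1) (by omega))
  refine (h2.trans h1).trans ?_
  apply mul_le_mul_of_nonneg_right _ (abs_nonneg _)
  exact pow_le_pow_left₀ (by linarith [hp.one_le]) hp.le_three _

theorem Par.low_small (hp : Par δ α) {i : ℕ} (hi : i % 6 ≠ 0) : 1 ≤ 3 ^ 4 * |T δ α i| := by
  have T1 := T_one hp.pos α
  have T2 : 1 ≤ 3 * |T δ α 2| := by
    have := hp.low (i := 2) (s := 1) le_rfl (by show K 3 ≠ K 1; rw [K1, K3]; decide)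
    rw [T1, abs_one, pow_one] at this
    exact this
  have T3 : 1 ≤ 3 * |T δ α 3| := by
    have := hp.low (i := 3) (s := 1) le_rfl (by show K 4 ≠ K 1; rw [K1, K4]; decide)
    rw [T1, abs_one, pow_one] at this
    exact this
  obtain ⟨s, h1, h2, _, h4⟩ := brk_small i hi
  have h5 := hp.low h1 h4
  have h0 := abs_nonneg (T δ α i)
  interval_cases s
  · rw [T1, abs_one] at h5
    linarith
  · linarith
  · linarith

theorem Par.low_big (hp : Par δ α) {m : ℕ} (hm : 0 < m) :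
    1 ≤ 3 ^ (6 * rho 0 m + 9) * |T δ α (6 * m)| := by
  obtain ⟨s0, h3, h4, _, h6, _⟩ := brk_big m hm
  have h5 := hp.low (i := 6 * m) (s := 6 * rho 0 m + s0) (by omega) h6
  have h7 := hp.low_small (i := 6 * rho 0 m + s0) (by omega)
  have h8 : (3:ℝ) ^ (6 * rho 0 m + s0) ≤ 3 ^ (6 * rho 0 m + 5) :=
    pow_le_pow_right₀ (by norm_num) (by omega)
  calc (1:ℝ) ≤ 3 ^ 4 * |T δ α (6 * rho 0 m + s0)| := h7
    _ ≤ 3 ^ 4 * (3 ^ (6 * rho 0 m + 5) * |T δ α (6 * m)|) := by
        apply mul_le_mul_of_nonneg_left _ (by norm_num)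
        exact h5.trans (mul_le_mul_of_nonneg_right h8 (abs_nonneg _))
    _ = _ := by
        rw [← mul_assoc, ← pow_add]
        congr 2
        omega

/-- the depth of the return at time `i` -/
def dep (i : ℕ) : ℕ := if i % 6 = 0 then rho 0 (i / 6) else 0

theorem Par.factor (hp : Par δ α) {i : ℕ} (hi : 1 ≤ i) :
    3 / 2 ≤ 3 ^ (16 * dep i) * (α * D δ (T δ α i)) := by
  have hδ := hp.pos
  have hδ2 := hp.small
  have hα := hp.ge
  have h0 := abs_nonneg (T δ α i)
  -- the shallow case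
  have shallow : 1 ≤ 3 ^ 9 * |T δ α i| → 3 / 2 ≤ α * D δ (T δ α i) := by
    intro h
    unfold D
    have hpos : 0 < |T δ α i| := by
      by_contra hc
      push Not at hc
      have : |T δ α i| = 0 := le_antisymm hc h0
      rw [this] at h
      norm_num at h
    rw [mul_div_assoc', le_div_iff₀ (by positivity)]
    have h1 : 2 * δ ≤ 1 / 20 * |T δ α i| := by
      have : (2:ℝ) * (1 / 10 ^ 7) ≤ 1 / 20 * (1 / 3 ^ 9) := by norm_num
      have h2 : 1 / 3 ^ 9 ≤ |T δ α i| := by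
        rw [div_le_iff₀ (by norm_num)]
        linarith
      linarith
    nlinarith
  by_cases h6 : i % 6 = 0
  · obtain ⟨m, rfl⟩ : ∃ m, i = 6 * m := ⟨i / 6, by omega⟩
    have hd : dep (6 * m) = rho 0 m := by
      unfold dep
      rw [if_pos h6, Nat.mul_div_cancel_left _ (by norm_num)]
    rw [hd]
    have hl := hp.low_big (m := m) (by omega)
    rcases Nat.eq_zero_or_pos (rho 0 m) with hr | hr
    · rw [hr] at hl ⊢
      rw [mul_zero, pow_zero, one_mul]
      exact shallow (by simpa using hl)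
    · have h1 : (3:ℝ) ^ (6 * rho 0 m + 10) ≤ 3 ^ (16 * rho 0 m) :=
        pow_le_pow_right₀ (by norm_num) (by omega)
      have h2 : |T δ α (6 * m)| ≤ 3 * D δ (T δ α (6 * m)) := by
        unfold D
        have h3 := hp.bd (6 * m)
        have h4 : 2 * δ ≤ 1 := by
          have : (2:ℝ) * (1 / 10 ^ 7) ≤ 1 := by norm_num
          linarith
        rw [mul_div_assoc', le_div_iff₀ (by positivity)]
        nlinarith
      have h3 : (1:ℝ) ≤ 3 ^ (16 * rho 0 m) * D δ (T δ α (6 * m)) := by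
        calc (1:ℝ) ≤ 3 ^ (6 * rho 0 m + 9) * |T δ α (6 * m)| := hl
          _ ≤ 3 ^ (6 * rho 0 m + 9) * (3 * D δ (T δ α (6 * m))) :=
            mul_le_mul_of_nonneg_left h2 (by positivity)
          _ = 3 ^ (6 * rho 0 m + 10) * D δ (T δ α (6 * m)) := by ring
          _ ≤ _ := mul_le_mul_of_nonneg_right h1 (D_nonneg hδ _)
      calc (3:ℝ) / 2 ≤ α * 1 := by linarith
        _ ≤ α * (3 ^ (16 * rho 0 m) * D δ (T δ α (6 * m))) :=
          mul_le_mul_of_nonneg_left h3 (by linarith)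
        _ = _ := by ring
  · have hd : dep i = 0 := by unfold dep; rw [if_neg h6]
    rw [hd, mul_zero, pow_zero, one_mul]
    apply shallow
    have := hp.low_small h6
    nlinarith

theorem sum_dep (n : ℕ) : ∑ i ∈ Finset.range n, dep (i + 1) =
    ∑ m ∈ Finset.Icc 1 (n / 6), rho 0 m := by
  induction n with
  | zero => simp
  | succ n ih =>
    rw [Finset.sum_range_succ, ih]
    unfold dep
    split_ifs with hc
    · have e : (n + 1) / 6 = n / 6 + 1 := by omega
      rw [e, Finset.sum_Icc_succ_top (by omega)]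
    · have e : (n + 1) / 6 = n / 6 := by omega
      rw [e, add_zero]

/-- the expansion along the critical orbit -/
noncomputable def P (δ α : ℝ) (n : ℕ) : ℝ := ∏ i ∈ Finset.range n, (α * D δ (T δ α (i + 1)))

theorem Par.P_ge (hp : Par δ α) (n : ℕ) : (6 / 5 : ℝ) ^ n ≤ P δ α n := by
  have h1 : (3 / 2 : ℝ) ^ n ≤ 3 ^ (16 * ∑ i ∈ Finset.range n, dep (i + 1)) * P δ α n := by
    unfold P
    rw [Finset.mul_sum, ← Finset.prod_pow_eq_pow_sum, ← Finset.prod_mul_distrib]
    calc (3 / 2 : ℝ) ^ n = ∏ _i ∈ Finset.range n, (3 / 2 : ℝ) := by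
          rw [Finset.prod_const, Finset.card_range]
      _ ≤ _ := Finset.prod_le_prod (fun _ _ => by norm_num)
          (fun i _ => hp.factor (by omega))
  rw [sum_dep] at h1
  have h2 := sum_rho (n / 6)
  set S := ∑ m ∈ Finset.Icc 1 (n / 6), rho 0 m
  have h3 : (3:ℝ) ^ (16 * S) ≤ (5 / 4) ^ n := by
    calc (3:ℝ) ^ (16 * S) ≤ ((5 / 4) ^ 5) ^ (16 * S) :=
          pow_le_pow_left₀ (by norm_num) (by norm_num) _
      _ = (5 / 4) ^ (5 * (16 * S)) := by rw [← pow_mul]
      _ ≤ (5 / 4) ^ n := pow_le_pow_right₀ (by norm_num) (by omega)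
  have hP : 0 ≤ P δ α n := Finset.prod_nonneg (fun i _ =>
    mul_nonneg (by linarith [hp.ge]) (D_nonneg hp.pos _))
  have h4 : (3 / 2 : ℝ) ^ n ≤ (5 / 4) ^ n * P δ α n :=
    h1.trans (mul_le_mul_of_nonneg_right h3 hP)
  have h5 : (3 / 2 : ℝ) ^ n = (5 / 4) ^ n * (6 / 5) ^ n := by
    rw [← mul_pow]; norm_num
  rw [h5] at h4
  exact le_of_mul_le_mul_left h4 (by positivity)

theorem Par.diff_ge (hp : Par δ α) (i r : ℕ) (hagree : ∀ t, 1 ≤ t → t ≤ r → K (i + t) = K t) :
    P δ α r * (α * h δ (T δ α i)) ≤ |T δ α (i + (r + 1)) - T δ α (r + 1)| := by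
  induction r with
  | zero =>
    have e : T δ α (i + (0 + 1)) - T δ α (0 + 1) = -(α * h δ (T δ α i)) := by
      rw [zero_add, T_one hp.pos]
      show (1 - α * h δ (T δ α i)) - 1 = _
      ring
    rw [e, abs_neg, abs_of_nonneg (mul_nonneg (by linarith [hp.ge]) (h_nonneg hp.pos _))]
    simp [P]
  | succ r ih =>
    have ih' := ih (fun t h1 h2 => hagree t h1 (by omega))
    have e : T δ α (i + (r + 1 + 1)) - T δ α (r + 1 + 1) =
        (α * (h δ (T δ α (r + 1)) - h δ (T δ α (i + (r + 1))))) := by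
      show (1 - α * h δ (T δ α (i + (r + 1)))) - (1 - α * h δ (T δ α (r + 1))) = _
      ring
    have hs : 0 ≤ T δ α (r + 1) * T δ α (i + (r + 1)) := by
      have h1 := hp.sign (r + 1) (by omega)
      have h2 := hp.sign (i + (r + 1)) (by omega)
      rw [hagree (r + 1) (by omega) le_rfl] at h2
      have h3 := mul_nonneg h1 h2
      have h4 : sg (K (r + 1)) * sg (K (r + 1)) = 1 := by unfold sg; split_ifs <;> norm_num
      calc (0:ℝ) ≤ _ := h3
        _ = (sg (K (r + 1)) * sg (K (r + 1))) * (T δ α (r + 1) * T δ α (i + (r + 1))) := by ring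
        _ = _ := by rw [h4, one_mul]
    have h5 := h_lower hp.pos hs
    have hα := hp.ge
    rw [e, abs_mul, abs_of_nonneg (by linarith : (0:ℝ) ≤ α)]
    have e2 : P δ α (r + 1) = P δ α r * (α * D δ (T δ α (r + 1))) := Finset.prod_range_succ _ _
    calc P δ α (r + 1) * (α * h δ (T δ α i))
        = (P δ α r * (α * h δ (T δ α i))) * (α * D δ (T δ α (r + 1))) := by rw [e2]; ring
      _ ≤ |T δ α (i + (r + 1)) - T δ α (r + 1)| * (α * D δ (T δ α (r + 1))) :=
        mul_le_mul_of_nonneg_right ih' (mul_nonneg (by linarith) (D_nonneg hp.pos _))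
      _ = α * (|T δ α (r + 1) - T δ α (i + (r + 1))| * D δ (T δ α (r + 1))) := by
        rw [abs_sub_comm]; ring
      _ ≤ _ := mul_le_mul_of_nonneg_left h5 (by linarith)

theorem Par.h_small (hp : Par δ α) (i r : ℕ) (hagree : ∀ t, 1 ≤ t → t ≤ r → K (i + t) = K t) :
    h δ (T δ α i) ≤ 2 * (5 / 6) ^ r := by
  have h1 := hp.diff_ge i r hagree
  have h2 := hp.P_ge r
  have h3 : |T δ α (i + (r + 1)) - T δ α (r + 1)| ≤ 2 := by
    have := hp.bd (i + (r + 1))
    have := hp.bd (r + 1)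
    have := abs_sub (T δ α (i + (r + 1))) (T δ α (r + 1))
    linarith
  have h4 := h_nonneg hp.pos (T δ α i)
  have h5 := hp.ge
  have h6 : (6 / 5 : ℝ) ^ r * h δ (T δ α i) ≤ 2 := by
    calc (6 / 5 : ℝ) ^ r * h δ (T δ α i) ≤ P δ α r * h δ (T δ α i) :=
          mul_le_mul_of_nonneg_right h2 h4
      _ ≤ P δ α r * (α * h δ (T δ α i)) := by
          apply mul_le_mul_of_nonneg_left _ (le_trans (by positivity) h2)
          nlinarith
      _ ≤ 2 := h1.trans h3
  have h7 : (5 / 6 : ℝ) ^ r * ((6 / 5) ^ r * h δ (T δ α i)) ≤ (5 / 6) ^ r * 2 :=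
    mul_le_mul_of_nonneg_left h6 (by positivity)
  rw [← mul_assoc, ← mul_pow] at h7
  norm_num at h7
  linarith

theorem Par.ne_zero (hp : Par δ α) {i : ℕ} (hi : 1 ≤ i) : T δ α i ≠ 0 := by
  intro h
  have := hp.factor hi
  rw [h] at this
  simp [D] at this
  norm_num at this

end Pool.Agent.Lib.MP_ef3a35_an
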