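import Mathlib
import Pool.Agent.Lib.MP_ef3a35_an.Defs
import Pool.Agent.Lib.MP_ef3a35_an.Orbit

set_option autoImplicit false

namespace Pool.Agent.Lib.MP_ef3a35_an

open Filter Topology

/-- the unimodal map -/
noncomputable def F (δ α x : ℝ) : ℝ := 1 - α / 2 * h δ (2 * x - 1)

noncomputable def w (δ x : ℝ) : ℝ := Real.sqrt ((2 * x - 1) ^ 2 + δ ^ 2)

variable {δ α : ℝ}

theorem w_pos (hδ : 0 < δ) (x : ℝ) : 0 < w δ x := sqrt_pos' hδ _

theorem w_sq (hδ : 0 < δ) (x : ℝ) : w δ x ^ 2 = (2 * x - 1) ^ 2 + δ ^ 2 :=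
  Real.sq_sqrt (sq_pos' hδ _).le

theorem w_deriv (hδ : 0 < δ) (x : ℝ) : HasDerivAt (w δ) (2 * (2 * x - 1) / w δ x) x := by
  have h1 : HasDerivAt (fun x : ℝ => (2 * x - 1) ^ 2 + δ ^ 2) (2 * (2 * x - 1) * 2) x := by
    have h0 : HasDerivAt (fun x : ℝ => 2 * x - 1) 2 x := by
      simpa using ((hasDerivAt_id x).const_mul 2).sub_const 1
    have := (h0.pow 2).add_const (δ ^ 2)
    simpa using this
  have h2 := h1.sqrt (sq_pos' hδ _).ne'
  have e : 2 * (2 * x - 1) * 2 / (2 * Real.sqrt ((2 * x - 1) ^ 2 + δ ^ 2)) =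
      2 * (2 * x - 1) / w δ x := by
    unfold w
    have := (sqrt_pos' hδ (2 * x - 1)).ne'
    field_simp
  rw [e] at h2
  exact h2

theorem F_eq (x : ℝ) : F δ α x = 1 - α / 2 * (w δ x - δ) := rfl

theorem F_deriv (hδ : 0 < δ) (x : ℝ) : HasDerivAt (F δ α) (-α * (2 * x - 1) / w δ x) x := by
  have h1 := ((w_deriv hδ x).sub_const δ).const_mul (α / 2)
  have h2 := h1.const_sub 1
  have e : -(α / 2 * (2 * (2 * x - 1) / w δ x)) = -α * (2 * x - 1) / w δ x := by ring
  rw [e] at h2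
  exact h2

theorem F_deriv2 (hδ : 0 < δ) (x : ℝ) :
    HasDerivAt (fun x => -α * (2 * x - 1) / w δ x) (-2 * α * δ ^ 2 / w δ x ^ 3) x := by
  have hw := (w_pos hδ x).ne'
  have h0 : HasDerivAt (fun x : ℝ => -α * (2 * x - 1)) (-α * 2) x := by
    have : HasDerivAt (fun x : ℝ => 2 * x - 1) 2 x := by
      simpa using ((hasDerivAt_id x).const_mul 2).sub_const 1
    exact this.const_mul (-α)
  have h1 := h0.div (w_deriv hδ x) hw
  have e : (-α * 2 * w δ x - -α * (2 * x - 1) * (2 * (2 * x - 1) / w δ x)) / w δ x ^ 2 =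
      -2 * α * δ ^ 2 / w δ x ^ 3 := by
    have h2 := w_sq hδ x
    have h3 : δ ^ 2 = w δ x ^ 2 - (2 * x - 1) ^ 2 := by rw [h2]; ring
    rw [h3]
    field_simp
    ring
  rw [e] at h1
  exact h1

theorem F_deriv3 (hδ : 0 < δ) (x : ℝ) :
    HasDerivAt (fun x => -2 * α * δ ^ 2 / w δ x ^ 3)
      (12 * α * δ ^ 2 * (2 * x - 1) / w δ x ^ 5) x := by
  have hw := (w_pos hδ x).ne'
  have h1 := ((w_deriv hδ x).pow 3)
  have h2 := (hasDerivAt_const x (-2 * α * δ ^ 2)).div h1 (pow_ne_zero 3 hw)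
  have e : (0 * w δ x ^ 3 - -2 * α * δ ^ 2 * (((3 : ℕ) : ℝ) * w δ x ^ (3 - 1) *
      (2 * (2 * x - 1) / w δ x))) / (w δ x ^ 3) ^ 2 = 12 * α * δ ^ 2 * (2 * x - 1) / w δ x ^ 5 := by
    push_cast
    field_simp
    ring
  rw [← e]
  exact h2

theorem deriv1 (hδ : 0 < δ) : deriv (F δ α) = fun x => -α * (2 * x - 1) / w δ x := by
  funext x; exact (F_deriv hδ x).deriv

theorem deriv2 (hδ : 0 < δ) : iteratedDeriv 2 (F δ α) = fun x => -2 * α * δ ^ 2 / w δ x ^ 3 := by
  rw [iteratedDeriv_succ, iteratedDeriv_one, deriv1 hδ]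
  funext x; exact (F_deriv2 hδ x).deriv

theorem deriv3 (hδ : 0 < δ) : iteratedDeriv 3 (F δ α) =
    fun x => 12 * α * δ ^ 2 * (2 * x - 1) / w δ x ^ 5 := by
  rw [iteratedDeriv_succ, deriv2 hδ]
  funext x; exact (F_deriv3 hδ x).deriv

theorem schwarz_neg (hδ : 0 < δ) (hα : 0 < α) {x : ℝ} (hx : x ≠ 1 / 2) :
    deriv (F δ α) x ≠ 0 ∧ schwarzian (F δ α) x < 0 := by
  have hw := w_pos hδ x
  have hu : 2 * x - 1 ≠ 0 := by
    intro h; apply hx; linarith
  constructor
  · rw [deriv1 hδ]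
    simp only
    exact div_ne_zero (mul_ne_zero (by linarith) hu) hw.ne'
  · unfold schwarzian
    rw [deriv1 hδ, deriv2 hδ, deriv3 hδ]
    simp only
    have e1 : 12 * α * δ ^ 2 * (2 * x - 1) / w δ x ^ 5 / (-α * (2 * x - 1) / w δ x) =
        -(12 * δ ^ 2 / w δ x ^ 4) := by
      field_simp
    rw [e1]
    have h1 : 0 < 12 * δ ^ 2 / w δ x ^ 4 := by positivity
    have h2 : 0 ≤ (-2 * α * δ ^ 2 / w δ x ^ 3 / (-α * (2 * x - 1) / w δ x)) ^ 2 := sq_nonneg _
    linarith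

theorem contDiff_w (hδ : 0 < δ) {n : WithTop ℕ∞} : ContDiff ℝ n (w δ) := by
  unfold w
  exact ContDiff.sqrt (by fun_prop) (fun x => (sq_pos' hδ _).ne')

theorem contDiff_F (hδ : 0 < δ) {n : WithTop ℕ∞} : ContDiff ℝ n (F δ α) := by
  have : F δ α = fun x => 1 - α / 2 * (w δ x - δ) := rfl
  rw [this]
  exact contDiff_const.sub (contDiff_const.mul ((contDiff_w hδ).sub contDiff_const))

theorem F_half (hδ : 0 < δ) : F δ α (1 / 2) = 1 := by
  unfold F
  norm_num
  rw [h_zero hδ]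
  simp

/-- the coordinate in which `F` is a square -/
noncomputable def phi (δ α x : ℝ) : ℝ := (2 * x - 1) * Real.sqrt (α / 2 / (w δ x + δ))

theorem phi_sq (hδ : 0 < δ) (hα : 0 < α) (x : ℝ) : F δ α x = 1 - phi δ α x ^ 2 := by
  have hw := w_pos hδ x
  unfold phi
  rw [mul_pow, Real.sq_sqrt (by positivity), F_eq]
  have h2 := w_sq hδ x
  have h3 : (2 * x - 1) ^ 2 = (w δ x - δ) * (w δ x + δ) := by
    have : (w δ x - δ) * (w δ x + δ) = w δ x ^ 2 - δ ^ 2 := by ring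
    rw [this, h2]; ring
  rw [h3]
  field_simp

theorem contDiff_phi (hδ : 0 < δ) (hα : 0 < α) {n : WithTop ℕ∞} : ContDiff ℝ n (phi δ α) := by
  unfold phi
  refine ContDiff.mul (by fun_prop) (ContDiff.sqrt ?_ ?_)
  · refine contDiff_const.div ((contDiff_w hδ).add contDiff_const) (fun x => ?_)
    have := w_pos hδ x
    positivity
  · intro x
    have := w_pos hδ x
    positivity

theorem deriv_phi (hδ : 0 < δ) (hα : 0 < α) : deriv (phi δ α) (1 / 2) ≠ 0 := by
  have h0 : HasDerivAt (fun x : ℝ => 2 * x - 1) 2 (1 / 2) := by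
    simpa using ((hasDerivAt_id (1 / 2 : ℝ)).const_mul 2).sub_const 1
  have h1 : DifferentiableAt ℝ (fun x => Real.sqrt (α / 2 / (w δ x + δ))) (1 / 2) := by
    have : ContDiff ℝ 1 (fun x => Real.sqrt (α / 2 / (w δ x + δ))) := by
      refine ContDiff.sqrt ?_ ?_
      · refine contDiff_const.div ((contDiff_w hδ).add contDiff_const) (fun x => ?_)
        have := w_pos hδ x
        positivity
      · intro x
        have := w_pos hδ x
        positivity
    exact (this.differentiable one_ne_zero) _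
  have h2 := (h0.mul h1.hasDerivAt).deriv
  have h3 : deriv (phi δ α) (1 / 2) = 2 * Real.sqrt (α / 2 / (w δ (1 / 2) + δ)) +
      (2 * (1 / 2) - 1) * deriv (fun x => Real.sqrt (α / 2 / (w δ x + δ))) (1 / 2) := h2
  rw [h3]
  have hw := w_pos hδ (1 / 2)
  have h4 : 0 < Real.sqrt (α / 2 / (w δ (1 / 2) + δ)) := Real.sqrt_pos.2 (by positivity)
  have e : (2 * (1 / 2) - 1 : ℝ) = 0 := by norm_num
  rw [e, zero_mul, add_zero]
  positivity

theorem h_strict (hδ : 0 < δ) {u v : ℝ} (huv : |u| < |v|) : h δ u < h δ v := by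
  unfold h
  have h1 : u ^ 2 < v ^ 2 := sq_lt_sq.2 huv
  have := Real.sqrt_lt_sqrt (sq_pos' hδ u).le (show u ^ 2 + δ ^ 2 < v ^ 2 + δ ^ 2 by linarith)
  linarith

theorem Par.sUnimodal (hp : Par δ α) : SUnimodal (F δ α) (1 / 2) := by
  have hδ := hp.pos
  have hα : 0 < α := by linarith [hp.ge]
  refine ⟨?_, by norm_num, (contDiff_F (n := 0) hδ).continuous.continuousOn, ?_, ?_,
    fun x _ _ => (contDiff_F hδ).contDiffAt, fun x _ hx => schwarz_neg hδ hα hx, ?_⟩
  · intro x hx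
    have h1 : |2 * x - 1| ≤ |(1:ℝ)| := by
      rw [abs_one, abs_le]
      constructor <;> linarith [hx.1, hx.2]
    have h2 : h δ (2 * x - 1) ≤ h δ 1 := h_mono h1
    have h3 := h_nonneg hδ (2 * x - 1)
    have h4 := hp.mul_h
    unfold F
    constructor
    · nlinarith
    · nlinarith
  · intro x hx z hz hxz
    have h1 : h δ (2 * z - 1) < h δ (2 * x - 1) := by
      apply h_strict hδ
      rw [abs_of_nonpos (by linarith [hz.2]), abs_of_nonpos (by linarith [hx.2])]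
      linarith
    show 1 - α / 2 * h δ (2 * x - 1) < 1 - α / 2 * h δ (2 * z - 1)
    nlinarith
  · intro x hx z hz hxz
    have h1 : h δ (2 * x - 1) < h δ (2 * z - 1) := by
      apply h_strict hδ
      rw [abs_of_nonneg (by linarith [hx.1]), abs_of_nonneg (by linarith [hz.1])]
      linarith
    show 1 - α / 2 * h δ (2 * z - 1) < 1 - α / 2 * h δ (2 * x - 1)
    nlinarith
  · refine ⟨2, by norm_num, phi δ α, (contDiff_phi hδ hα).contDiffAt, ?_, deriv_phi hδ hα, ?_⟩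
    · unfold phi; norm_num
    · filter_upwards with x
      rw [F_half hδ, phi_sq hδ hα x]
      congr 1
      rw [show (2:ℝ) = ((2:ℕ):ℝ) by norm_num, Real.rpow_natCast, sq_abs]

theorem iter_eq (n : ℕ) : (F δ α)^[n] (1 / 2) = (T δ α n + 1) / 2 := by
  induction n with
  | zero => simp [T]
  | succ n ih =>
    rw [Function.iterate_succ_apply', ih]
    show 1 - α / 2 * h δ (2 * ((T δ α n + 1) / 2) - 1) = (1 - α * h δ (T δ α n) + 1) / 2
    have e : 2 * ((T δ α n + 1) / 2) - 1 = T δ α n := by ring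
    rw [e]
    ring

theorem iter_deriv (f f' : ℝ → ℝ) (hf : ∀ x, HasDerivAt f (f' x) x) (n : ℕ) (x : ℝ) :
    HasDerivAt (f^[n]) (∏ i ∈ Finset.range n, f' (f^[i] x)) x := by
  induction n with
  | zero => simpa using hasDerivAt_id x
  | succ n ih =>
    rw [Finset.prod_range_succ, mul_comm, Function.iterate_succ']
    exact (hf (f^[n] x)).comp x ih

theorem Par.ce (hp : Par δ α) : ColletEckmann (F δ α) (1 / 2) := by
  have hδ := hp.pos
  have hα : 0 < α := by linarith [hp.ge]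
  refine ⟨1 / 2, by norm_num, 6 / 5, by norm_num, ?_⟩
  intro n _
  have h1 := (iter_deriv (F δ α) _ (F_deriv hδ) n (F δ α (1 / 2))).deriv
  rw [h1, Finset.abs_prod]
  have h2 : P δ α n ≤ ∏ i ∈ Finset.range n,
      |-α * (2 * (F δ α)^[i] (F δ α (1 / 2)) - 1) / w δ ((F δ α)^[i] (F δ α (1 / 2)))| := by
    unfold P
    apply Finset.prod_le_prod
    · intro i _
      exact mul_nonneg hα.le (D_nonneg hδ _)
    · intro i _
      have e : (F δ α)^[i] (F δ α (1 / 2)) = (T δ α (i + 1) + 1) / 2 := by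
        rw [← iter_eq, Function.iterate_succ_apply]
      have e2 : 2 * ((T δ α (i + 1) + 1) / 2) - 1 = T δ α (i + 1) := by ring
      rw [e]
      unfold w
      rw [e2, abs_div, abs_mul, abs_neg, abs_of_pos hα, abs_of_pos (sqrt_pos' hδ _)]
      unfold D
      rw [← mul_div_assoc]
      apply div_le_div_of_nonneg_left (by positivity) (sqrt_pos' hδ _)
      have := sqrt_le hδ (T δ α (i + 1))
      linarith
  have h3 := hp.P_ge n
  have h4 : (0:ℝ) < (6 / 5) ^ n := by positivity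
  linarith

theorem Par.knead (hp : Par δ α) {i : ℕ} (hi : 1 ≤ i) : kneading (F δ α) (1 / 2) i = K i := by
  unfold kneading
  rw [iter_eq]
  have h1 := hp.sign i hi
  have h2 := hp.ne_zero hi
  cases hK : K i with
  | true =>
    rw [hK] at h1
    simp only [sg, if_true, one_mul] at h1
    rw [decide_eq_true_eq]
    have := lt_of_le_of_ne h1 h2.symm
    linarith
  | false =>
    rw [hK] at h1
    simp only [sg, Bool.false_eq_true, if_false] at h1
    rw [decide_eq_false_iff_not]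
    have : T δ α i ≤ 0 := by linarith
    intro h
    linarith

theorem le_ret {e : ℕ → Bool} {m r : ℕ} (h : ∀ i, 1 ≤ i → i ≤ r → e (m + i) = e i) :
    (r : ℕ∞) ≤ ret e m := by
  unfold ret
  exact le_iSup₂_of_le r h le_rfl

theorem agree_rho {m : ℕ} (hm : 0 < m) : ∀ t, 1 ≤ t → t ≤ 6 * rho 0 m →
    K (6 * m + t) = K t := by
  obtain ⟨s0, h3, h4, h5, _⟩ := brk_big m hm
  intro t h1 h2
  exact h5 t h1 (by omega)

theorem Par.recurrent (hp : Par δ α) : RegularlyRecurrent (F δ α) (1 / 2) := by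
  intro U hU
  obtain ⟨ε, hε, hball⟩ := Metric.mem_nhds_iff.1 hU
  have hδ := hp.pos
  have hδ2 := hp.small
  -- choose the level
  obtain ⟨r, hr⟩ := exists_pow_lt_of_lt_one (show 0 < ε ^ 2 / 100 ⊓ 1 / 2 by positivity)
    (show (5 / 6 : ℝ) < 1 by norm_num)
  have hr1 : (5 / 6 : ℝ) ^ r < ε ^ 2 / 100 := lt_of_lt_of_le hr (min_le_left _ _)
  have hr2 : (5 / 6 : ℝ) ^ r < 1 / 2 := lt_of_lt_of_le hr (min_le_right _ _)
  refine ⟨6 * k (r + 1), by have := k_pos (r + 1); omega, ?_⟩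
  intro n hn
  apply hball
  rw [Metric.mem_ball, Real.dist_eq]
  have e : n * (6 * k (r + 1)) = 6 * (n * k (r + 1)) := by ring
  rw [e, iter_eq]
  have hpos : 0 < n * k (r + 1) := Nat.mul_pos hn (k_pos _)
  have hrho : r ≤ rho 0 (n * k (r + 1)) := by
    rw [rho_zero_mul _ _ hn]
    have h1 := a_le_rho n (r + 1) hn
    have h2 := k_le_a r
    have h3 := lt_k r
    omega
  have hs := hp.h_small (6 * (n * k (r + 1))) r (fun t h1 h2 => agree_rho hpos t h1 (by omega))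
  set t := T δ α (6 * (n * k (r + 1)))
  have h1 : t ^ 2 = h δ t ^ 2 + 2 * δ * h δ t := by
    unfold h
    nlinarith [sqrt_sq' hδ t]
  have h0 := h_nonneg hδ t
  have h2 : t ^ 2 < ε ^ 2 := by
    have h3 : h δ t ≤ 1 := by linarith
    have h4 : 2 * δ ≤ 1 := by
      have : (2:ℝ) * (1 / 10 ^ 7) ≤ 1 := by norm_num
      linarith
    rw [h1]
    nlinarith
  have h3 : |t| < ε := abs_lt_of_sq_lt_sq h2 hε.le
  have e2 : (t + 1) / 2 - 1 / 2 = t / 2 := by ring
  rw [e2, abs_div, abs_of_pos (by norm_num : (0:ℝ) < 2)]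
  have := abs_nonneg t
  linarith

end Pool.Agent.Lib.MP_ef3a35_an
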